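import Mathlib
import Pool.Agent.H48.NE.RandCode

/-!
# Counting tables which avoid given values at given cells
-/

namespace Pool.Agent.H66.NX

open Pool.Agent.H48.NE

set_option maxHeartbeats 1000000

/-- The bit `i` of the number `v`. -/
def vb (v i : ℕ) : Bool := decide (v / 2 ^ i % 2 = 1)

lemma card_match {B k : ℕ} (hk : k ≤ B) (v : ℕ) :
    ((Finset.univ : Finset (Fin B → Bool)).filter fun b =>
      ∀ i : Fin B, (i : ℕ) < k → b i = vb v i).card * 2 ^ k = 2 ^ B := by
  classical
  have e : ((Finset.univ : Finset (Fin B → Bool)).filter fun b =>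
      ∀ i : Fin B, (i : ℕ) < k → b i = vb v i) =
      Fintype.piFinset fun i : Fin B => if (i : ℕ) < k then {vb v i} else Finset.univ := by
    ext b
    rw [Finset.mem_filter, Fintype.mem_piFinset]
    simp only [Finset.mem_univ, true_and]
    refine forall_congr' fun i => ?_
    split_ifs with h <;> simp [h]
  rw [e, Fintype.card_piFinset]
  have e2 : ∀ i : Fin B, (if (i : ℕ) < k then ({vb v i} : Finset Bool) else Finset.univ).card =
      if (i : ℕ) < k then 1 else 2 := by
    intro i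
    split_ifs <;> simp
  simp only [e2]
  rw [Finset.prod_ite]
  simp only [Finset.prod_const, one_pow, one_mul]
  have e3 : ((Finset.univ : Finset (Fin B)).filter fun i : Fin B => ¬ (i : ℕ) < k).card =
      B - k := by
    have h1 := Finset.card_filter_add_card_filter_not (s := (Finset.univ : Finset (Fin B)))
      (p := fun i : Fin B => (i : ℕ) < k)
    have h2 : ((Finset.univ : Finset (Fin B)).filter fun i : Fin B => (i : ℕ) < k).card =
        (Finset.range k).card := by
      refine Finset.card_bij (fun (i : Fin B) _ => (i : ℕ)) ?_ ?_ ?_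
      · intro i hi
        rw [Finset.mem_filter] at hi
        exact Finset.mem_range.2 hi.2
      · intro i _ j _ h
        exact Fin.ext h
      · intro j hj
        rw [Finset.mem_range] at hj
        exact ⟨⟨j, by omega⟩, by simp [hj], rfl⟩
    rw [Finset.card_range] at h2
    rw [h2] at h1
    simp only [Finset.card_univ, Fintype.card_fin] at h1
    omega
  rw [e3, ← pow_add]
  congr 1
  omega

lemma card_differ {B k : ℕ} (hk : k ≤ B) (v : ℕ) :
    ((Finset.univ : Finset (Fin B → Bool)).filter fun b =>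
      ∃ i : Fin B, (i : ℕ) < k ∧ b i ≠ vb v i).card * 2 ^ k = (2 ^ k - 1) * 2 ^ B := by
  classical
  have h1 := Finset.card_filter_add_card_filter_not (s := (Finset.univ : Finset (Fin B → Bool)))
    (p := fun b => ∀ i : Fin B, (i : ℕ) < k → b i = vb v i)
  have h2 := card_match hk v
  have h3 : ((Finset.univ : Finset (Fin B → Bool)).filter fun b =>
      ∃ i : Fin B, (i : ℕ) < k ∧ b i ≠ vb v i) = ((Finset.univ : Finset (Fin B → Bool)).filter
        fun b => ¬ ∀ i : Fin B, (i : ℕ) < k → b i = vb v i) := by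
    ext b
    simp
  rw [← h3] at h1
  have h4 : (Finset.univ : Finset (Fin B → Bool)).card = 2 ^ B := by simp
  rw [h4] at h1
  obtain ⟨x, hx⟩ : ∃ x, x = ((Finset.univ : Finset (Fin B → Bool)).filter fun b =>
      ∀ i : Fin B, (i : ℕ) < k → b i = vb v i).card := ⟨_, rfl⟩
  obtain ⟨y, hy⟩ : ∃ y, y = ((Finset.univ : Finset (Fin B → Bool)).filter fun b =>
      ∃ i : Fin B, (i : ℕ) < k ∧ b i ≠ vb v i).card := ⟨_, rfl⟩
  rw [← hx] at h1 h2
  rw [← hy] at h1 ⊢
  obtain ⟨N, hN⟩ : ∃ N, 2 ^ k = N + 1 := ⟨2 ^ k - 1, by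
    have : 0 < 2 ^ k := by positivity
    omega⟩
  rw [hN] at h2 ⊢
  rw [Nat.add_sub_cancel]
  have h5 : (x + y) * (N + 1) = 2 ^ B * (N + 1) := by rw [h1]
  rw [add_mul, h2] at h5
  nlinarith

/-- Tables avoiding given values at the cells of `J`. -/
theorem card_avoid {M B k : ℕ} (hk : k ≤ B) (J : Finset ℕ) (hJ : ∀ j ∈ J, j < M) (v : ℕ → ℕ) :
    ((Finset.univ : Finset (Fin (M * B) → Bool)).filter fun g =>
      ∀ j ∈ J, ∃ i < k, ext g (j * B + i) ≠ vb (v j) i).card * (2 ^ k) ^ J.card ≤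
      (2 ^ k - 1) ^ J.card * 2 ^ (M * B) := by
  classical
  let S : Fin M → Finset (Fin B → Bool) := fun j =>
    if (j : ℕ) ∈ J then (Finset.univ : Finset (Fin B → Bool)).filter fun b =>
      ∃ i : Fin B, (i : ℕ) < k ∧ b i ≠ vb (v j) i else Finset.univ
  have h1 : ((Finset.univ : Finset (Fin (M * B) → Bool)).filter fun g =>
      ∀ j ∈ J, ∃ i < k, ext g (j * B + i) ≠ vb (v j) i).card ≤ (Fintype.piFinset S).card := by
    refine Finset.card_le_card_of_injOn (fun g j i => g (finProdFinEquiv (j, i))) ?_ ?_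
    · intro g hg
      rw [Finset.mem_coe, Finset.mem_filter] at hg
      rw [Finset.mem_coe, Fintype.mem_piFinset]
      intro j
      simp only [S]
      split_ifs with hj
      · rw [Finset.mem_filter]
        refine ⟨Finset.mem_univ _, ?_⟩
        obtain ⟨i, hi, hne⟩ := hg.2 j hj
        refine ⟨⟨i, by omega⟩, hi, ?_⟩
        have e : ((finProdFinEquiv (j, (⟨i, by omega⟩ : Fin B)) : Fin (M * B)) : ℕ) =
            j * B + i := by
          simp [finProdFinEquiv]
          ring
        have h2 : (j : ℕ) * B + i < M * B := by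
          rw [← e]
          exact (finProdFinEquiv (j, (⟨i, by omega⟩ : Fin B))).2
        rw [ext_of_lt _ h2] at hne
        have e3 : (finProdFinEquiv (j, (⟨i, by omega⟩ : Fin B)) : Fin (M * B)) =
            ⟨j * B + i, h2⟩ := Fin.ext e
        show g (finProdFinEquiv (j, (⟨i, by omega⟩ : Fin B))) ≠ vb (v j) i
        rw [e3]
        exact hne
      · exact Finset.mem_univ _
    · intro g _ g' _ h
      funext x
      have h2 : g (finProdFinEquiv ((finProdFinEquiv.symm x).1, (finProdFinEquiv.symm x).2)) =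
          g' (finProdFinEquiv ((finProdFinEquiv.symm x).1, (finProdFinEquiv.symm x).2)) :=
        congrFun (congrFun h (finProdFinEquiv.symm x).1) (finProdFinEquiv.symm x).2
      rwa [Prod.mk.eta, Equiv.apply_symm_apply] at h2
  have h2 : (Fintype.piFinset S).card * (2 ^ k) ^ J.card =
      (2 ^ k - 1) ^ J.card * 2 ^ (M * B) := by
    rw [Fintype.card_piFinset]
    obtain ⟨s, hs⟩ : ∃ s : ℕ → ℕ, ∀ j, s j = ((Finset.univ : Finset (Fin B → Bool)).filter fun b =>
      ∃ i : Fin B, (i : ℕ) < k ∧ b i ≠ vb (v j) i).card := ⟨_, fun _ => rfl⟩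
    have e1 : ∀ j : Fin M, (S j).card = if (j : ℕ) ∈ J then s j else 2 ^ B := by
      intro j
      simp only [S, hs]
      split_ifs
      · rfl
      · simp
    simp only [e1]
    have e2 : (J.card : ℕ) =
        ((Finset.univ : Finset (Fin M)).filter fun j : Fin M => (j : ℕ) ∈ J).card := by
      symm
      refine Finset.card_bij (fun (j : Fin M) _ => (j : ℕ)) ?_ ?_ ?_
      · intro j hj
        exact (Finset.mem_filter.1 hj).2
      · intro i _ j _ h
        exact Fin.ext h
      · intro j hj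
        exact ⟨⟨j, hJ j hj⟩, by simp [hj], rfl⟩
    have e3 : ∀ x : ℕ, x ^ J.card = ∏ j : Fin M, if (j : ℕ) ∈ J then x else 1 := by
      intro x
      rw [e2, Finset.prod_ite]
      simp
    rw [e3, e3, ← Finset.prod_mul_distrib]
    have e4 : 2 ^ (M * B) = ∏ j : Fin M, 2 ^ B := by
      rw [Finset.prod_const, Finset.card_univ, Fintype.card_fin, ← pow_mul, Nat.mul_comm]
    rw [e4, ← Finset.prod_mul_distrib]
    refine Finset.prod_congr rfl fun j _ => ?_
    split_ifs with h
    · rw [hs, card_differ hk]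
    · ring
  rw [← h2]
  exact Nat.mul_le_mul_right _ h1

lemma bern (m n : ℕ) : m ^ (n + 1) + (n + 1) * m ^ n ≤ (m + 1) ^ (n + 1) := by
  induction n with
  | zero => simp
  | succ n ih =>
    calc m ^ (n + 1 + 1) + (n + 1 + 1) * m ^ (n + 1)
        ≤ (m ^ (n + 1) + (n + 1) * m ^ n) * (m + 1) := by
          have e : (m ^ (n + 1) + (n + 1) * m ^ n) * (m + 1) =
              m ^ (n + 1 + 1) + (n + 1 + 1) * m ^ (n + 1) + (n + 1) * m ^ n := by ring
          rw [e]
          exact Nat.le_add_right _ _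
      _ ≤ (m + 1) ^ (n + 1) * (m + 1) := Nat.mul_le_mul_right _ ih
      _ = (m + 1) ^ (n + 1 + 1) := by ring

lemma decay {N E j : ℕ} (hN : 0 < N) (h : N * E ≤ j) : (N - 1) ^ j * 2 ^ E ≤ N ^ j := by
  obtain ⟨m, rfl⟩ : ∃ m, N = m + 1 := ⟨N - 1, by omega⟩
  rw [Nat.add_sub_cancel]
  obtain ⟨r, rfl⟩ := Nat.exists_eq_add_of_le h
  have h1 : m ^ (m + 1) * 2 ≤ (m + 1) ^ (m + 1) := by
    have h2 := bern m m
    have h3 : m * m ^ m = m ^ (m + 1) := by ring
    nlinarith [Nat.zero_le (m ^ m)]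
  calc m ^ ((m + 1) * E + r) * 2 ^ E = (m ^ (m + 1) * 2) ^ E * m ^ r := by
        rw [pow_add, pow_mul, mul_pow]
        ring
    _ ≤ ((m + 1) ^ (m + 1)) ^ E * (m + 1) ^ r :=
        Nat.mul_le_mul (Nat.pow_le_pow_left h1 _) (Nat.pow_le_pow_left (by omega) _)
    _ = _ := by rw [← pow_mul, ← pow_add]

/-- Tables avoiding given values at many cells are rare. -/
theorem card_avoid' {M B k E : ℕ} (hk : k ≤ B) (J : Finset ℕ) (hJ : ∀ j ∈ J, j < M) (v : ℕ → ℕ)
    (hE : 2 ^ k * E ≤ J.card) :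
    ((Finset.univ : Finset (Fin (M * B) → Bool)).filter fun g =>
      ∀ j ∈ J, ∃ i < k, ext g (j * B + i) ≠ vb (v j) i).card * 2 ^ E ≤ 2 ^ (M * B) := by
  classical
  have h1 := card_avoid hk J hJ v
  have hN : 0 < 2 ^ k := by positivity
  have h2 := decay hN hE
  have h3 : 0 < (2 ^ k) ^ J.card := by positivity
  refine Nat.le_of_mul_le_mul_right ?_ h3
  calc _ = (((Finset.univ : Finset (Fin (M * B) → Bool)).filter fun g =>
      ∀ j ∈ J, ∃ i < k, ext g (j * B + i) ≠ vb (v j) i).card * (2 ^ k) ^ J.card) * 2 ^ E := by ring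
    _ ≤ ((2 ^ k - 1) ^ J.card * 2 ^ (M * B)) * 2 ^ E := Nat.mul_le_mul_right _ h1
    _ = ((2 ^ k - 1) ^ J.card * 2 ^ E) * 2 ^ (M * B) := by ring
    _ ≤ (2 ^ k) ^ J.card * 2 ^ (M * B) := Nat.mul_le_mul_right _ h2
    _ = _ := by ring

end Pool.Agent.H66.NX
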