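import Pool.Agent.H66.NX.HardX
import Pool.Agent.H48.NE.R11main

/-!
# Excluded values: computable forms
-/

namespace Pool.Agent.H66.NX

open Pool.Agent.H48.NE TMLib Polynomial Filter

set_option maxHeartbeats 1000000

lemma idx_lt {a k z v : ℕ} (hz : z < 2 ^ a) (hv : v < 2 ^ k) : z * 2 ^ k + v < 2 ^ (a + k) := by
  calc z * 2 ^ k + v < z * 2 ^ k + 2 ^ k := by omega
    _ = (z + 1) * 2 ^ k := by ring
    _ ≤ 2 ^ a * 2 ^ k := Nat.mul_le_mul_right _ hz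
    _ = _ := by rw [pow_add]

lemma avd_congr {a k : ℕ} {W W' : ℕ → Bool} {c c' : ℕ → ℕ → Bool}
    (hW : ∀ j < 2 ^ (a + k), W j = W' j) (hc : ∀ z < 2 ^ a, ∀ i < k, c z i = c' z i) :
    Avd a k W c ↔ Avd a k W' c' := by
  unfold Avd
  refine forall_congr' fun z => imp_congr_right fun hz => forall_congr' fun v =>
    imp_congr_right fun hv => ?_
  rw [hW _ (idx_lt hz hv)]
  refine imp_congr_right fun _ => exists_congr fun i => and_congr_right fun hi => ?_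
  rw [hc z hz i hi]

lemma nDm_congr {a k : ℕ} {W W' : ℕ → Bool} (hW : ∀ j < 2 ^ (a + k), W j = W' j) :
    nDm a k W = nDm a k W' := by
  classical
  unfold nDm
  congr 1
  refine Finset.filter_congr fun z hz => ?_
  rw [Finset.mem_range] at hz
  refine exists_congr fun v => and_congr_right fun hv => ?_
  rw [hW _ (idx_lt hz hv)]

/-- The bit `i` of `v`, computable form. -/
def vbT (N v i : ℕ) : Bool := decide (v / powB N i % 2 = 1)

lemma vbT_eq {N v i : ℕ} (h : 2 ^ i ≤ N) : vbT N v i = vb v i := by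
  unfold vbT vb
  rw [powB_eq h]

@[fun_prop] lemma ptime_vbT {α : Type} [Enc α] {N v i : α → ℕ} (hN : PTime N) (hv : PTime v)
    (hi : PTime i) : PTime (fun x => vbT (N x) (v x) (i x)) := by
  unfold vbT
  fun_prop

/-- The bits of the values of a codeword. -/
def kcT (C : ℕ) (x : (((ℕ × ℕ) × List Bool) × List Bool) × (ℕ × ℕ)) : Bool :=
  x.1.1.2.getD ((x.2.1 * powB x.1.1.1.2 (C * x.1.1.1.1) +
    hv x.1.2 (x.2.1 % prm (powB x.1.1.1.2 (C * x.1.1.1.1 - 1)))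
      (prm (powB x.1.1.1.2 (C * x.1.1.1.1 - 1)))) * powB x.1.1.1.2 (2 * (C * x.1.1.1.1)) +
    x.2.2) false

lemma ptime_kcT (C : ℕ) : PTime (kcT C) := by
  unfold kcT
  have h1 : PTime fun p : (((ℕ × ℕ) × List Bool) × List Bool) × (ℕ × ℕ) =>
      prm (powB p.1.1.1.2 (C * p.1.1.1.1 - 1)) := by fun_prop
  have h2 : PTime fun p : (((ℕ × ℕ) × List Bool) × List Bool) × (ℕ × ℕ) =>
      p.2.1 % prm (powB p.1.1.1.2 (C * p.1.1.1.1 - 1)) := PTime.mod (by fun_prop) h1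
  have h3 : PTime fun p : (((ℕ × ℕ) × List Bool) × List Bool) × (ℕ × ℕ) =>
      hv p.1.2 (p.2.1 % prm (powB p.1.1.1.2 (C * p.1.1.1.1 - 1)))
        (prm (powB p.1.1.1.2 (C * p.1.1.1.1 - 1))) := ptime_hv (by fun_prop) h2 h1
  have h4 : PTime fun p : (((ℕ × ℕ) × List Bool) × List Bool) × (ℕ × ℕ) =>
      p.2.1 * powB p.1.1.1.2 (C * p.1.1.1.1) + hv p.1.2
        (p.2.1 % prm (powB p.1.1.1.2 (C * p.1.1.1.1 - 1)))
        (prm (powB p.1.1.1.2 (C * p.1.1.1.1 - 1))) := PTime.add (by fun_prop) h3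
  have h5 : PTime fun p : (((ℕ × ℕ) × List Bool) × List Bool) × (ℕ × ℕ) =>
      (p.2.1 * powB p.1.1.1.2 (C * p.1.1.1.1) + hv p.1.2
        (p.2.1 % prm (powB p.1.1.1.2 (C * p.1.1.1.1 - 1)))
        (prm (powB p.1.1.1.2 (C * p.1.1.1.1 - 1)))) * powB p.1.1.1.2 (2 * (C * p.1.1.1.1)) +
      p.2.2 := PTime.add (PTime.mul h4 (by fun_prop)) (by fun_prop)
  exact PTime.listGetD (by fun_prop) h5 (by fun_prop)

lemma kcT_eq {C n N : ℕ} (h : 2 ^ (C * n) ≤ N) (h' : 2 ^ (2 * (C * n)) ≤ N) (g T : List Bool)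
    (z i : ℕ) : kcT C ((((n, N), g), T), (z, i)) =
      kcw (C * n) (prm (2 ^ (C * n - 1))) (fun i => g.getD i false) T z i := by
  have h1 : 2 ^ (C * n - 1) ≤ N := le_trans (Nat.pow_le_pow_right (by norm_num) (by omega)) h
  unfold kcT kcw
  simp only
  rw [powB_eq h, powB_eq h1, powB_eq h']

/-- The computable form of `Avd` for codewords. -/
def avT (C K : ℕ) (x : (((ℕ × ℕ) × List Bool) × List Bool) × List Bool) : Bool :=
  (List.range (powB x.1.1.1.2 (C * x.1.1.1.1))).all fun z =>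
    (List.range (powB x.1.1.1.2 (K * x.1.1.1.1))).all fun v =>
      !(x.2.getD (z * powB x.1.1.1.2 (K * x.1.1.1.1) + v) false) ||
        !((List.range (K * x.1.1.1.1)).all fun i =>
          decide (kcT C (x.1, (z, i)) = vbT x.1.1.1.2 v i))

lemma ptime_avT (C K : ℕ) : PTime (avT C K) := by
  unfold avT
  refine PTime.all (g := fun (x : (((ℕ × ℕ) × List Bool) × List Bool) × List Bool) z =>
    (List.range (powB x.1.1.1.2 (K * x.1.1.1.1))).all fun v =>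
      !(x.2.getD (z * powB x.1.1.1.2 (K * x.1.1.1.1) + v) false) ||
        !((List.range (K * x.1.1.1.1)).all fun i =>
          decide (kcT C (x.1, (z, i)) = vbT x.1.1.1.2 v i))) (by fun_prop) ?_
  refine PTime.all (g := fun (x : ((((ℕ × ℕ) × List Bool) × List Bool) × List Bool) × ℕ) v =>
      !(x.1.2.getD (x.2 * powB x.1.1.1.1.2 (K * x.1.1.1.1.1) + v) false) ||
        !((List.range (K * x.1.1.1.1.1)).all fun i =>
          decide (kcT C (x.1.1, (x.2, i)) = vbT x.1.1.1.1.2 v i))) (by fun_prop) ?_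
  refine PTime.or (by fun_prop) (PTime.not ?_)
  refine PTime.all (g := fun (x : (((((ℕ × ℕ) × List Bool) × List Bool) × List Bool) × ℕ) × ℕ) i =>
      decide (kcT C (x.1.1.1, (x.1.2, i)) = vbT x.1.1.1.1.1.2 x.2 i)) (by fun_prop) ?_
  exact PTime.eq ((ptime_kcT C).comp (f := fun (x : (((((((ℕ × ℕ) × List Bool) × List Bool) ×
    List Bool) × ℕ) × ℕ) × ℕ)) => (x.1.1.1.1, (x.1.1.2, x.2))) (by fun_prop)) (by fun_prop)

lemma all_iff {k : ℕ} {c c' : ℕ → Bool} :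
    (!((List.range k).all fun i => decide (c i = c' i))) = true ↔ ∃ i < k, c i ≠ c' i := by
  rw [Bool.not_eq_true', ← Bool.not_eq_true, List.all_eq_true]
  push Not
  simp only [List.mem_range, ne_eq, decide_eq_true_eq]

lemma avT_iff {C K n N : ℕ} (h : 2 ^ (C * n) ≤ N) (h' : 2 ^ (2 * (C * n)) ≤ N)
    (h'' : 2 ^ (K * n) ≤ N) (g T W : List Bool) :
    avT C K ((((n, N), g), T), W) = true ↔ Avd (C * n) (K * n) (fun i => W.getD i false)
      (kcw (C * n) (prm (2 ^ (C * n - 1))) (fun i => g.getD i false) T) := by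
  unfold avT Avd
  simp only
  rw [powB_eq h, powB_eq h'', List.all_eq_true]
  simp only [List.mem_range]
  refine forall_congr' fun z => imp_congr_right fun _ => ?_
  rw [List.all_eq_true]
  simp only [List.mem_range]
  refine forall_congr' fun v => imp_congr_right fun _ => ?_
  rw [Bool.or_eq_true, all_iff, Bool.not_eq_true', ← Bool.not_eq_true]
  have e : (∃ i < K * n, kcT C ((((n, N), g), T), (z, i)) ≠ vbT N v i) ↔ ∃ i < K * n,
      kcw (C * n) (prm (2 ^ (C * n - 1))) (fun i => g.getD i false) T z i ≠ vb v i := by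
    refine exists_congr fun i => and_congr_right fun hi => ?_
    rw [kcT_eq h h', vbT_eq (le_trans (Nat.pow_le_pow_right (by norm_num) hi.le) h'')]
  rw [e]
  tauto

/-- The number of positions with a marked value, as a computable function. -/
def ndT (C K : ℕ) (x : (ℕ × ℕ) × List Bool) : ℕ :=
  ((List.range (powB x.1.2 (C * x.1.1))).filter fun z =>
    !((List.range (powB x.1.2 (K * x.1.1))).all fun v =>
      !(x.2.getD (z * powB x.1.2 (K * x.1.1) + v) false))).length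

lemma ptime_ndT (C K : ℕ) : PTime (ndT C K) := by
  unfold ndT
  refine PTime.length (PTime.filter (g := fun (x : (ℕ × ℕ) × List Bool) z =>
    !((List.range (powB x.1.2 (K * x.1.1))).all fun v =>
      !(x.2.getD (z * powB x.1.2 (K * x.1.1) + v) false))) (by fun_prop) (PTime.not ?_))
  exact PTime.all (g := fun (x : ((ℕ × ℕ) × List Bool) × ℕ) v =>
      !(x.1.2.getD (x.2 * powB x.1.1.2 (K * x.1.1.1) + v) false)) (by fun_prop) (by fun_prop)

lemma ndT_eq {C K n N : ℕ} (h : 2 ^ (C * n) ≤ N) (h' : 2 ^ (K * n) ≤ N) (W : List Bool) :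
    ndT C K ((n, N), W) = nDm (C * n) (K * n) (fun i => W.getD i false) := by
  classical
  unfold ndT nDm
  simp only
  rw [powB_eq h, powB_eq h', length_filter_range]
  congr 1
  refine Finset.filter_congr fun z _ => ?_
  rw [Bool.not_eq_true', ← Bool.not_eq_true, List.all_eq_true]
  push Not
  simp only [List.mem_range]
  refine exists_congr fun v => and_congr_right fun _ => ?_
  simp

/-- Computable form of badness. -/
def BadXP (C K Q : ℕ) (x : (ℕ × ℕ) × List Bool) : Prop :=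
  ∃ W : List Bool, sz W ≤ 1 + 4 * x.1.2 ∧ ∃ Λ : List (List Bool),
    sz Λ ≤ 1 + x.1.2 * (2 + 4 * x.1.2) ∧ (((powB x.1.2 (Q * x.1.1) ≤ ndT C K (x.1, W) ∧
      Λ.length = powB x.1.2 ((K + 1) * x.1.1)) ∧ ndp Λ = true) ∧
      ∀ T ∈ Λ, (T.length = powB x.1.2 x.1.1 ∧ avT C K ((x, T), W) = true))

lemma psp_badXP (C K Q : ℕ) : PSp (BadXP C K Q) := by
  unfold BadXP
  refine PSp.exists_le (R := fun (x : (ℕ × ℕ) × List Bool) (W : List Bool) =>
    ∃ Λ : List (List Bool),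
    sz Λ ≤ 1 + x.1.2 * (2 + 4 * x.1.2) ∧ (((powB x.1.2 (Q * x.1.1) ≤ ndT C K (x.1, W) ∧
      Λ.length = powB x.1.2 ((K + 1) * x.1.1)) ∧ ndp Λ = true) ∧
      ∀ T ∈ Λ, (T.length = powB x.1.2 x.1.1 ∧ avT C K ((x, T), W) = true))) ?_ (by fun_prop)
  refine PSp.exists_le (R := fun (y : ((ℕ × ℕ) × List Bool) × List Bool)
      (Λ : List (List Bool)) =>
      (((powB y.1.1.2 (Q * y.1.1.1) ≤ ndT C K (y.1.1, y.2) ∧
      Λ.length = powB y.1.1.2 ((K + 1) * y.1.1.1)) ∧ ndp Λ = true) ∧ ∀ T ∈ Λ,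
      (T.length = powB y.1.1.2 y.1.1.1 ∧ avT C K ((y.1, T), y.2) = true))) ?_ (by fun_prop)
  refine PSp.and (PSp.and (PSp.and (PSp.of_ptime ?_) (PSp.of_ptime (by fun_prop)))
    (PSp.of_ptime (by fun_prop))) ?_
  · exact PTime.le (by fun_prop) ((ptime_ndT C K).comp (by fun_prop))
  refine PSp.forall_mem (R := fun (z : (((ℕ × ℕ) × List Bool) × List Bool) ×
      List (List Bool)) (T : List Bool) => (T.length = powB z.1.1.1.2 z.1.1.1.1 ∧
      avT C K ((z.1.1, T), z.1.2) = true)) ?_ (by fun_prop)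
  refine PSp.and (PSp.of_ptime (by fun_prop)) (PSp.of_ptime ?_)
  exact PTime.decide_true' ((ptime_avT C K).comp (by fun_prop))

lemma badXP_iff {C K Q n N : ℕ} (h1 : 2 ^ (C * n) ≤ N) (h2 : 2 ^ (Q * n) ≤ N)
    (h3 : 2 ^ n ≤ N) (h4 : 2 ^ ((K + 1) * n) ≤ N) (h5 : 2 ^ ((C + K) * n) ≤ N)
    (h6 : 2 ^ (2 * (C * n)) ≤ N) (h7 : 2 ^ (K * n) ≤ N) (g : List Bool) :
    BadXP C K Q ((n, N), g) ↔
      BadX n (C * n) (K * n) (Q * n) (2 ^ ((K + 1) * n)) (prm (2 ^ (C * n - 1)))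
        (fun i => g.getD i false) := by
  classical
  unfold BadXP BadX
  simp only
  rw [powB_eq h2, powB_eq h3, powB_eq h4]
  constructor
  · rintro ⟨W, -, Λ, -, ⟨⟨h8, h9⟩, h10⟩, h11⟩
    rw [ndp_iff] at h10
    rw [ndT_eq h1 h7] at h8
    refine ⟨fun z => W.getD z false, Λ.toFinset, h8, ?_, fun T hT => ?_⟩
    · rw [List.toFinset_card_of_nodup h10, h9]
    · obtain ⟨h12, h13⟩ := h11 T (List.mem_toFinset.1 hT)
      rw [avT_iff h1 h6 h7] at h13
      exact ⟨h12, h13⟩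
  · rintro ⟨W, Λ, h8, h9, h10⟩
    have e0 : (C + K) * n = C * n + K * n := by ring
    have e1 : ∀ z < 2 ^ (C * n + K * n),
        ((List.range (2 ^ ((C + K) * n))).map W).getD z false = W z := by
      intro z hz
      rw [← e0] at hz
      simp [List.getD, hz]
    refine ⟨(List.range (2 ^ ((C + K) * n))).map W, ?_, Λ.toList, ?_,
      ⟨⟨?_, ?_⟩, ?_⟩, fun T hT => ?_⟩
    · have := sz_bits_le ((List.range (2 ^ ((C + K) * n))).map W)
      rw [List.length_map, List.length_range] at this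
      omega
    · have h12 := sz_list_le Λ.toList (2 ^ ((K + 1) * n)) (1 + 4 * 2 ^ n)
        (by rw [Finset.length_toList, h9]) (fun T hT => by
          have h13 := sz_bits_le T
          rwa [(h10 T (Finset.mem_toList.1 hT)).1] at h13)
      refine h12.trans ?_
      have h13 : 1 + (1 + 4 * 2 ^ n) ≤ 2 + 4 * N := by omega
      exact Nat.add_le_add_left (Nat.mul_le_mul h4 h13) _
    · rw [ndT_eq h1 h7]
      refine le_of_le_of_eq h8 ?_
      exact nDm_congr fun j hj => (e1 j hj).symm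
    · rw [Finset.length_toList, h9]
    · rw [ndp_iff]
      exact Finset.nodup_toList _
    · obtain ⟨h12, h13⟩ := h10 T (Finset.mem_toList.1 hT)
      refine ⟨h12, ?_⟩
      rw [avT_iff h1 h6 h7]
      exact (avd_congr (fun j hj => (e1 j hj)) (fun _ _ _ _ => rfl)).2 h13

/-- Badness of the generated table. -/
def BadLX (C K Q C₃ c n : ℕ) (B : List Bool) (s : ℕ) : Prop :=
  BadX n (C * n) (K * n) (Q * n) (2 ^ ((K + 1) * n)) (prm (2 ^ (C * n - 1)))
    (fun i => (gL (2 * C) C₃ c n B s).getD i false)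

/-- The property of the hard word. -/
def HdX (C K Q C₂ K₂ Q₂ C₃ c n : ℕ) (L : List Bool) : Prop :=
  ∀ W : List Bool, W.length = 2 ^ ((C₂ + K₂) * n) →
    Avd (C₂ * n) (K₂ * n) (fun i => W.getD i false)
      (fun z i => L.getD (z * 2 ^ (C₂ * n) + i) false) →
    2 ^ (Q₂ * n) ≤ nDm (C₂ * n) (K₂ * n) (fun i => W.getD i false) →
    ∃ s < 2 ^ (2 * (C₃ * n) * 2 ^ c), ¬ BadLX C K Q C₃ c n W s

lemma badX_congr {n a k q t p : ℕ} (hp : 0 < p) (hpa : p ≤ 2 ^ a) (hk : k ≤ 2 ^ (2 * a))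
    {g g' : ℕ → Bool} (h : ∀ i < 2 ^ (2 * a) * 2 ^ (2 * a), g i = g' i)
    (hb : BadX n a k q t p g) : BadX n a k q t p g' := by
  obtain ⟨W, Λ, h1, h2, h3⟩ := hb
  refine ⟨W, Λ, h1, h2, fun T hT => ⟨(h3 T hT).1, ?_⟩⟩
  refine (avd_congr (fun _ _ => rfl) ?_).1 (h3 T hT).2
  intro z hz i hi
  unfold kcw
  refine h _ ?_
  have h3 : hv T (z % p) p < 2 ^ a := lt_of_lt_of_le (hv_lt _ _ hp) hpa
  have h4 : z * 2 ^ a + hv T (z % p) p < 2 ^ (2 * a) := by
    calc z * 2 ^ a + hv T (z % p) p < z * 2 ^ a + 2 ^ a := by omega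
      _ = (z + 1) * 2 ^ a := by ring
      _ ≤ 2 ^ a * 2 ^ a := Nat.mul_le_mul_right _ hz
      _ = _ := by rw [← pow_add]; congr 1; ring
  calc (z * 2 ^ a + hv T (z % p) p) * 2 ^ (2 * a) + i
      < (z * 2 ^ a + hv T (z % p) p) * 2 ^ (2 * a) + 2 ^ (2 * a) := by omega
    _ = (z * 2 ^ a + hv T (z % p) p + 1) * 2 ^ (2 * a) := by ring
    _ ≤ _ := Nat.mul_le_mul_right _ h4

lemma exists_HdX {C K C₂ K₂ C₃ c n : ℕ} (hC : 1 ≤ C) (hKC : K ≤ C) (hKC₂ : K₂ ≤ C₂)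
    (hC₃ : C₂ + K₂ + 8 * C + 2 ≤ C₃) (hc : 2 * C₃ + 2 ≤ c) (hn : 1 ≤ n)
    (hn2 : 8 * (C * n + K * n + 1) ≤ 2 ^ n) :
    ∃ L : List Bool, L.length = 2 ^ (2 * C₂ * n) ∧
      HdX C K (K + 4) C₂ K₂ (K₂ + 6 * C + 2) C₃ c n L := by
  have hCn : n ≤ C * n := Nat.le_mul_of_pos_left _ hC
  have e2 : K₂ * n + 3 * (2 * C * n) + 2 ≤ (K₂ + 6 * C + 2) * n := by nlinarith
  have e3 : C₂ * n + K₂ * n + 4 * (2 * C * n) + 2 ≤ C₃ * n := by
    calc C₂ * n + K₂ * n + 4 * (2 * C * n) + 2 ≤ (C₂ + K₂ + 8 * C + 2) * n := by nlinarith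
      _ ≤ _ := Nat.mul_le_mul_right _ hC₃
  have eC : 2 * C * n = 2 * (C * n) := by ring
  obtain ⟨hp, hp1, hp2⟩ := prm_spec (B := 2 ^ (C * n - 1)) (by positivity)
  obtain ⟨hps, hps1, hps2⟩ := prm_spec (B := 2 ^ (C₃ * n - 1)) (by positivity)
  have e4 : 2 * 2 ^ (C * n - 1) = 2 ^ (C * n) := by
    rw [← pow_succ']
    congr 1
    omega
  have hC₃n : 1 ≤ C₃ * n := by
    have : 1 * 1 ≤ C₃ * n := Nat.mul_le_mul (by omega) hn
    omega
  have e5 : 2 * 2 ^ (C₃ * n - 1) = 2 ^ (C₃ * n) := by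
    rw [← pow_succ']
    congr 1
    omega
  have hlen : 2 ^ (2 * C * n) * 2 ^ (2 * C * n) ≤
      (desM c (2 * (C₃ * n)) (2 * C * n)).length := by
    have h1 := le_length_desM (c := c) (l := 2 * (C₃ * n)) (ρ := 2 * C * n) (by omega)
    have h2 : 2 ^ (2 * C * n) * 2 ^ (2 * C * n) * 2 ^ (2 * (C₃ * n)) ≤
        2 ^ (c * (2 * C * n + 1)) := by
      rw [← pow_add, ← pow_add]
      refine Nat.pow_le_pow_right (by norm_num) ?_
      calc 2 * C * n + 2 * C * n + 2 * (C₃ * n) ≤ (2 * C₃ + 2) * (2 * C * n) := by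
            have : C₃ * n ≤ C₃ * (2 * C * n) := Nat.mul_le_mul_left _ (by nlinarith)
            nlinarith
        _ ≤ c * (2 * C * n + 1) := Nat.mul_le_mul hc (by omega)
    exact Nat.le_of_mul_le_mul_right (h2.trans h1) (by positivity)
  have hD : ∀ i < 2 ^ (2 * C * n) * 2 ^ (2 * C * n), ∀ k < 2 ^ (2 * C * n) * 2 ^ (2 * C * n),
      i ≠ k → agD c (2 * (C₃ * n)) ((desM c (2 * (C₃ * n)) (2 * C * n)).getD i 0)
        ((desM c (2 * (C₃ * n)) (2 * C * n)).getD k 0) ≤ 2 * C * n := fun i hi k hk hik =>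
    desM_pairwise c _ _ (lt_of_lt_of_le hi hlen) (lt_of_lt_of_le hk hlen) hik
  have hkn : K * n ≤ 2 ^ (2 * (C * n)) := by
    have h1 : K * n ≤ C * n := Nat.mul_le_mul_right _ hKC
    have h2 : 2 * (C * n) < 2 ^ (2 * (C * n)) := Nat.lt_two_pow_self
    omega
  have hk2n : K₂ * n ≤ 2 ^ (C₂ * n) := by
    have h1 : K₂ * n ≤ C₂ * n := Nat.mul_le_mul_right _ hKC₂
    have h2 : C₂ * n < 2 ^ (C₂ * n) := Nat.lt_two_pow_self
    omega
  have hcard := card_badX (n := n) (a := C * n) (k := K * n) (q := (K + 4) * n)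
    (p := prm (2 ^ (C * n - 1))) (K := 2 ^ (2 * C * n) * 2 ^ (2 * C * n)) (τ := (K + 1) * n)
    (r := n) hp (by omega) (by omega) hkn hn2 (by nlinarith) (by nlinarith) (by rw [eC])
  have hcongr : ∀ g g' : ℕ → Bool, (∀ i < 2 ^ (2 * C * n) * 2 ^ (2 * C * n), g i = g' i) →
      BadX n (C * n) (K * n) ((K + 4) * n) (2 ^ ((K + 1) * n)) (prm (2 ^ (C * n - 1))) g →
      BadX n (C * n) (K * n) ((K + 4) * n) (2 ^ ((K + 1) * n)) (prm (2 ^ (C * n - 1))) g' := by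
    intro g g' h
    rw [eC] at h
    exact badX_congr hp.pos (by omega) hkn h
  obtain ⟨L, hL, hL'⟩ := exists_hardX (A := 2 * C * n) (K := 2 ^ (2 * C * n) * 2 ^ (2 * C * n))
    (m := C₂ * n) (k := K₂ * n) (as := C₃ * n) (ps := prm (2 ^ (C₃ * n - 1))) (c := c)
    (l := 2 * (C₃ * n)) (ρ := 2 * C * n) (q := (K₂ + 6 * C + 2) * n)
    (desM c (2 * (C₃ * n)) (2 * C * n))
    (BadX n (C * n) (K * n) ((K + 4) * n) (2 ^ ((K + 1) * n)) (prm (2 ^ (C * n - 1))))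
    hcongr hcard (by omega)
    rfl hps (by omega) (by omega) (by ring) e3 hD le_rfl hk2n e2
  refine ⟨L, by rw [hL]; congr 1; ring, fun W hW hav hdm => ?_⟩
  obtain ⟨s, hs, hbad⟩ := hL' W (by rw [hW]; congr 1; ring) hav hdm
  refine ⟨s, hs, fun h => hbad ?_⟩
  refine hcongr _ _ ?_ h
  intro i hi
  have hi' : i < 2 ^ (2 * (2 * C * n)) := by
    rw [← pow_add] at hi
    rwa [show 2 * (2 * C * n) = 2 * C * n + 2 * C * n by ring]
  unfold gL
  simp [List.getD, hi']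

lemma bad_bridgeX (C K Q C₃ c : ℕ) : ∀ᶠ q in big ⊤, ∀ (B : List Bool) (s : ℕ),
    (BadXP C K Q ((q.1, q.2), gT (2 * C) C₃ c (((q.1, q.2), B), s)) ↔
      BadLX C K Q C₃ c q.1 B s) := by
  have h1 := eventually_le_two_pow ⊤ (c := c * (2 * C₃)) (fun n => c * (2 * (C₃ * n)))
    (fun n => by nlinarith [Nat.zero_le (c * (2 * C₃))])
  have h2 := eventually_le_two_pow ⊤ (c := 2 * C₃ * 2 ^ c) (fun n => 2 * (C₃ * n) * 2 ^ c)
    (fun n => by nlinarith [Nat.zero_le (2 * C₃ * 2 ^ c)])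
  have h3 := eventually_le_two_pow ⊤ (c := 2 * C₃) (fun n => 2 * (C₃ * n)) (fun n => by nlinarith)
  have h4 := eventually_le_two_pow ⊤ (c := 4 * C) (fun n => 2 * (2 * C * n)) (fun n => by nlinarith)
  have h5 := eventually_two_pow_le ⊤ Q
  have h6 := eventually_two_pow_le ⊤ 1
  have h7 := eventually_two_pow_le ⊤ C
  have h8 := eventually_two_pow_le ⊤ (K + 1)
  have h9 := eventually_two_pow_le ⊤ (C + K)
  have h10 := eventually_le_two_pow ⊤ (c := 2 * C) (fun n => 2 * (C * n)) (fun n => by nlinarith)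
  have h11 := eventually_two_pow_le ⊤ K
  filter_upwards [h1, h2, h3, h4, h5, h6, h7, h8, h9, h10, h11] with
    q h1 h2 h3 h4 h5 h6 h7 h8 h9 h10 h11 B s
  rw [one_mul] at h6
  rw [gT_eq h1 h2 h3 h4, badXP_iff h7 h5 h6 h8 h9 h10 h11]
  rfl

/-- Wrong values of a function given by the bits of its values. -/
def wvT (C₂ K₂ : ℕ) (x : ((ℕ × ℕ) × List Bool) × List Bool) : Bool :=
  (List.range (powB x.1.1.2 (C₂ * x.1.1.1))).all fun z =>
    (List.range (powB x.1.1.2 (K₂ * x.1.1.1))).all fun v =>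
      !(x.2.getD (z * powB x.1.1.2 (K₂ * x.1.1.1) + v) false) ||
        !((List.range (K₂ * x.1.1.1)).all fun i =>
          decide (x.1.2.getD (z * powB x.1.1.2 (C₂ * x.1.1.1) + i) false = vbT x.1.1.2 v i))

lemma ptime_wvT (C₂ K₂ : ℕ) : PTime (wvT C₂ K₂) := by
  unfold wvT
  refine PTime.all (g := fun (x : ((ℕ × ℕ) × List Bool) × List Bool) z =>
    (List.range (powB x.1.1.2 (K₂ * x.1.1.1))).all fun v =>
      !(x.2.getD (z * powB x.1.1.2 (K₂ * x.1.1.1) + v) false) ||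
        !((List.range (K₂ * x.1.1.1)).all fun i =>
          decide (x.1.2.getD (z * powB x.1.1.2 (C₂ * x.1.1.1) + i) false = vbT x.1.1.2 v i)))
    (by fun_prop) ?_
  refine PTime.all (g := fun (x : (((ℕ × ℕ) × List Bool) × List Bool) × ℕ) v =>
      !(x.1.2.getD (x.2 * powB x.1.1.1.2 (K₂ * x.1.1.1.1) + v) false) ||
        !((List.range (K₂ * x.1.1.1.1)).all fun i =>
          decide (x.1.1.2.getD (x.2 * powB x.1.1.1.2 (C₂ * x.1.1.1.1) + i) false =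
            vbT x.1.1.1.2 v i))) (by fun_prop) ?_
  refine PTime.or (by fun_prop) (PTime.not ?_)
  refine PTime.all (g := fun (x : ((((ℕ × ℕ) × List Bool) × List Bool) × ℕ) × ℕ) i =>
      decide (x.1.1.1.2.getD (x.1.2 * powB x.1.1.1.1.2 (C₂ * x.1.1.1.1.1) + i) false =
        vbT x.1.1.1.1.2 x.2 i)) (by fun_prop) ?_
  exact PTime.eq (by fun_prop) (by fun_prop)

lemma wvT_iff {C₂ K₂ n N : ℕ} (h : 2 ^ (C₂ * n) ≤ N) (h' : 2 ^ (K₂ * n) ≤ N) (L W : List Bool) :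
    wvT C₂ K₂ (((n, N), L), W) = true ↔ Avd (C₂ * n) (K₂ * n) (fun i => W.getD i false)
      (fun z i => L.getD (z * 2 ^ (C₂ * n) + i) false) := by
  unfold wvT Avd
  simp only
  rw [powB_eq h, powB_eq h', List.all_eq_true]
  simp only [List.mem_range]
  refine forall_congr' fun z => imp_congr_right fun _ => ?_
  rw [List.all_eq_true]
  simp only [List.mem_range]
  refine forall_congr' fun v => imp_congr_right fun _ => ?_
  rw [Bool.or_eq_true, all_iff, Bool.not_eq_true', ← Bool.not_eq_true]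
  have e : (∃ i < K₂ * n, L.getD (z * 2 ^ (C₂ * n) + i) false ≠ vbT N v i) ↔ ∃ i < K₂ * n,
      L.getD (z * 2 ^ (C₂ * n) + i) false ≠ vb v i := by
    refine exists_congr fun i => and_congr_right fun hi => ?_
    rw [vbT_eq (le_trans (Nat.pow_le_pow_right (by norm_num) hi.le) h')]
  rw [e]
  tauto

/-- The computable form of the property of the hard word. -/
def HdXP (C K Q C₂ K₂ Q₂ C₃ c : ℕ) (x : (ℕ × ℕ) × List Bool) : Prop :=
  ∀ W : List Bool, sz W ≤ 1 + 4 * x.1.2 →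
    (((W.length = powB x.1.2 ((C₂ + K₂) * x.1.1) ∧ wvT C₂ K₂ (x, W) = true) ∧
      powB x.1.2 (Q₂ * x.1.1) ≤ ndT C₂ K₂ (x.1, W)) →
    ∃ s ∈ List.range (powB x.1.2 (2 * (C₃ * x.1.1) * 2 ^ c)),
      ¬ BadXP C K Q ((x.1.1, x.1.2), gT (2 * C) C₃ c (((x.1.1, x.1.2), W), s)))

lemma psp_HdXP (C K Q C₂ K₂ Q₂ C₃ c : ℕ) : PSp (HdXP C K Q C₂ K₂ Q₂ C₃ c) := by
  unfold HdXP
  refine PSp.forall_le (R := fun (x : (ℕ × ℕ) × List Bool) (W : List Bool) =>
    (((W.length = powB x.1.2 ((C₂ + K₂) * x.1.1) ∧ wvT C₂ K₂ (x, W) = true) ∧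
      powB x.1.2 (Q₂ * x.1.1) ≤ ndT C₂ K₂ (x.1, W)) →
    ∃ s ∈ List.range (powB x.1.2 (2 * (C₃ * x.1.1) * 2 ^ c)),
      ¬ BadXP C K Q ((x.1.1, x.1.2), gT (2 * C) C₃ c (((x.1.1, x.1.2), W), s)))) ?_ (by fun_prop)
  refine PSp.imp (PSp.and (PSp.and (PSp.of_ptime (by fun_prop)) (PSp.of_ptime ?_))
    (PSp.of_ptime ?_)) ?_
  · exact PTime.decide_true' ((ptime_wvT C₂ K₂).comp (by fun_prop))
  · exact PTime.le (by fun_prop) ((ptime_ndT C₂ K₂).comp (by fun_prop))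
  · refine PSp.exists_mem (R := fun (y : ((ℕ × ℕ) × List Bool) × List Bool)
      (s : ℕ) => ¬ BadXP C K Q ((y.1.1.1, y.1.1.2),
        gT (2 * C) C₃ c (((y.1.1.1, y.1.1.2), y.2), s))) (PSp.not ?_) (by fun_prop)
    refine (psp_badXP C K Q).comp (g := fun z : (((ℕ × ℕ) × List Bool) × List Bool) × ℕ =>
      ((z.1.1.1.1, z.1.1.1.2), gT (2 * C) C₃ c (((z.1.1.1.1, z.1.1.1.2), z.1.2), z.2))) ?_
    exact PTime.pair (by fun_prop) ((ptime_gT (2 * C) C₃ c).comp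
      (f := fun z : (((ℕ × ℕ) × List Bool) × List Bool) × ℕ =>
        (((z.1.1.1.1, z.1.1.1.2), z.1.2), z.2)) (by fun_prop))

lemma HdXP_iff (C K Q C₂ K₂ Q₂ C₃ c : ℕ) : ∀ᶠ q in big ⊤, ∀ L : List Bool,
    L.length = 2 ^ (2 * C₂ * q.1) →
      (HdXP C K Q C₂ K₂ Q₂ C₃ c ((q.1, q.2), L) ↔ HdX C K Q C₂ K₂ Q₂ C₃ c q.1 L) := by
  have h2 := eventually_le_two_pow ⊤ (c := 2 * C₃ * 2 ^ c) (fun n => 2 * (C₃ * n) * 2 ^ c)
    (fun n => by nlinarith [Nat.zero_le (2 * C₃ * 2 ^ c)])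
  filter_upwards [bad_bridgeX C K Q C₃ c, h2, eventually_two_pow_le ⊤ C₂,
    eventually_two_pow_le ⊤ Q₂, eventually_two_pow_le ⊤ K₂,
    eventually_two_pow_le ⊤ (C₂ + K₂)] with q h1 h2 h3 h4 h5 h6 L _
  unfold HdXP HdX
  simp only
  rw [powB_eq h2, powB_eq h4, powB_eq h6]
  simp only [h1, List.mem_range]
  constructor
  · intro h W hW hav hdm
    refine h W ?_ ⟨⟨hW, ?_⟩, ?_⟩
    · have := sz_bits_le W
      omega
    · rw [wvT_iff h3 h5]
      exact hav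
    · rw [ndT_eq h3 h5]
      exact hdm
  · rintro h W - ⟨⟨hW, hav⟩, hdm⟩
    rw [wvT_iff h3 h5] at hav
    rw [ndT_eq h3 h5] at hdm
    exact h W hW hav hdm

end Pool.Agent.H66.NX
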