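import Pool.Agent.H66.NX.StrX

/-!
# Excluded values: the easy direction and the theorem
-/

namespace Pool.Agent.H66.NX

open Pool.Agent.H48.NE TMLib Polynomial Filter

set_option maxHeartbeats 1000000

lemma exists_ne_length {w : List Bool} (h : 0 < w.length) :
    ∃ v : List Bool, v.length = w.length ∧ v ≠ w := by
  cases w with
  | nil => simp at h
  | cons b l =>
    refine ⟨(!b) :: l, rfl, ?_⟩
    cases b <;> simp

/-- The set of all wrong values is in exponential space. -/
theorem wrong_mem {f : List Bool → List Bool}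
    (hf : {y | ∃ x, y = pairStr x (f x)} ∈ EXPSPACE) :
    {y | ∃ x v, y = pairStr x v ∧ v.length = (f x).length ∧ v ≠ f x} ∈ EXPSPACE := by
  classical
  obtain ⟨c, P, hP, h⟩ := exists_psp_of_mem_EXPSPACE hf
  have hmem : ∀ x w, pairStr x w ∈ {y | ∃ x, y = pairStr x (f x)} ↔ w = f x := by
    intro x w
    constructor
    · rintro ⟨x', hx'⟩
      obtain ⟨rfl, rfl⟩ := pairStr_inj hx'
      rfl
    · rintro rfl
      exact ⟨x, rfl⟩
  refine mem_EXPSPACE_of_psp (P := fun s : List Bool × ℕ =>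
    s.1 = pairStr (fstS s.1) (sndS s.1) ∧ ∃ w : List Bool, sz w ≤ 1 + 4 * s.2 ∧
      ((w.length = (sndS s.1).length ∧ sndS s.1 ≠ w) ∧ P (pairStr (fstS s.1) w, s.2)))
      ?_ (c + 1) ?_
  · refine PSp.and (PSp.of_ptime (by fun_prop)) ?_
    refine PSp.exists_le (R := fun (s : List Bool × ℕ) (w : List Bool) =>
      (w.length = (sndS s.1).length ∧ sndS s.1 ≠ w) ∧ P (pairStr (fstS s.1) w, s.2)) ?_
      (by fun_prop)
    refine PSp.and (PSp.and (PSp.of_ptime (by fun_prop)) (PSp.not (PSp.of_ptime (by fun_prop)))) ?_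
    exact hP.comp (g := fun s : (List Bool × ℕ) × List Bool =>
      (pairStr (fstS s.1.1) s.2, s.1.2)) (by fun_prop)
  · intro y
    obtain ⟨N, hN⟩ : ∃ N, N = 2 ^ ((c + 1) * (y.length + 1)) := ⟨_, rfl⟩
    rw [← hN]
    have hyN : y.length ≤ N := by
      rw [hN]
      have h1 := n_lt_exp y.length
      have h2 : 2 ^ (1 * (y.length + 1)) ≤ 2 ^ ((c + 1) * (y.length + 1)) :=
        pow_mono_exp (by omega) _
      omega
    have hPN : ∀ x v w : List Bool, y = pairStr x v → w.length = v.length →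
        (P (pairStr x w, N) ↔ w = f x) := by
      intro x v w hy hw
      rw [h _ N ?_, hmem]
      rw [length_pairStr, hw, ← length_pairStr x v, ← hy, hN]
      exact pow_mono_exp (by omega) _
    simp only [Set.mem_ofPred_eq]
    constructor
    · rintro ⟨x, v, hy, h1, h2⟩
      have e1 : fstS y = x := by rw [hy, fstS_pair]
      have e2 : sndS y = v := by rw [hy, sndS_pair]
      rw [e1, e2]
      refine ⟨hy, f x, ?_, ⟨h1.symm, h2⟩, (hPN x v (f x) hy h1.symm).2 rfl⟩
      have h3 := sz_bits_le (f x)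
      have h4 : (f x).length ≤ y.length := by
        rw [hy, length_pairStr]
        omega
      omega
    · rintro ⟨hy, w, -, ⟨h1, h2⟩, h3⟩
      have h4 := (hPN _ _ w hy h1).1 h3
      refine ⟨fstS y, sndS y, hy, ?_, ?_⟩
      · rw [← h4, h1]
      · rw [← h4]
        exact h2

/-- The set of all wrong values with arbitrary advice is in exponential space. -/
theorem wrong_mem' {f : List Bool → List Bool}
    (hf : {y | ∃ x, y = pairStr x (f x)} ∈ EXPSPACE) :
    {y | ∃ s x v, y = pairStr s (pairStr x v) ∧ v.length = (f x).length ∧ v ≠ f x} ∈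
      EXPSPACE := by
  obtain ⟨c, P, hP, h⟩ := exists_psp_of_mem_EXPSPACE (wrong_mem hf)
  refine mem_EXPSPACE_of_psp (P := fun s : List Bool × ℕ =>
    s.1 = pairStr (fstS s.1) (sndS s.1) ∧ P (sndS s.1, s.2)) ?_ c ?_
  · refine PSp.and (PSp.of_ptime (by fun_prop)) ?_
    exact hP.comp (g := fun s : List Bool × ℕ => (sndS s.1, s.2)) (by fun_prop)
  · intro y
    have key : ∀ s w : List Bool, y = pairStr s w → (P (w, 2 ^ (c * (y.length + 1))) ↔
        w ∈ {y | ∃ x v, y = pairStr x v ∧ v.length = (f x).length ∧ v ≠ f x}) := by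
      intro s w hy
      refine h _ _ (Nat.pow_le_pow_right (by norm_num) (Nat.mul_le_mul_left _ ?_))
      rw [hy, length_pairStr]
      omega
    simp only [Set.mem_ofPred_eq]
    constructor
    · rintro ⟨s, x, v, hy, h1, h2⟩
      have e1 : fstS y = s := by rw [hy, fstS_pair]
      have e2 : sndS y = pairStr x v := by rw [hy, sndS_pair]
      rw [e1, e2]
      exact ⟨hy, (key _ _ hy).2 ⟨x, v, rfl, h1, h2⟩⟩
    · rintro ⟨hy, h3⟩
      obtain ⟨x, v, h4, h5, h6⟩ := (key _ _ hy).1 h3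
      exact ⟨fstS y, x, v, by rw [← h4]; exact hy, h5, h6⟩

theorem wrong_of_eq {p q : ℕ} (hp : 0 < p) (hq : 0 < q) {κ : ℝ} (hκ : κ ≤ 1)
    (h : NEXPTIME = EXPSPACE) : WrongValues p q κ := by
  intro f hf hG
  refine ⟨_, h ▸ wrong_mem' hG, fun _ => [], 0, fun n => by simp, ?_, q, fun n hn => ?_⟩
  · rintro x v ⟨s, x', v', h1, h2, h3⟩
    obtain ⟨-, h4⟩ := pairStr_inj h1
    obtain ⟨rfl, rfl⟩ := pairStr_inj h4
    exact ⟨h2, h3⟩
  · have e : {x : List Bool | x.length = n ∧ ∃ v, pairStr [] (pairStr x v) ∈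
        {y | ∃ s x v, y = pairStr s (pairStr x v) ∧ v.length = (f x).length ∧ v ≠ f x}} =
        {x | x.length = n} := by
      ext x
      simp only [Set.mem_ofPred_eq]
      constructor
      · exact fun h => h.1
      · intro hx
        refine ⟨hx, ?_⟩
        have h1 : 0 < (f x).length := by
          rw [hf, hx]
          refine Nat.div_pos ?_ hq
          have : n ≤ p * n := Nat.le_mul_of_pos_left _ hp
          omega
        obtain ⟨v, hv1, hv2⟩ := exists_ne_length h1
        exact ⟨v, [], x, v, rfl, hv1, hv2⟩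
    rw [e, ncard_lists]
    push_cast
    rw [← Real.rpow_natCast 2 n]
    refine Real.rpow_le_rpow_of_exponent_le (by norm_num) ?_
    have h3 : (0 : ℝ) ≤ n := Nat.cast_nonneg n
    nlinarith

theorem unary_of_eq (h : NEXPTIME = EXPSPACE) : UnaryCollapse := by
  intro U hU _
  rw [h]
  exact hU

theorem subset_of_wrong {p q : ℕ} (hp : 0 < p) (hq : 0 < q) {κ : ℝ} (hκ : κ ≤ 1)
    (hpq : (p / q : ℝ) < κ) (h1 : UnaryCollapse) (h2 : WrongValues p q κ) :
    EXPSPACE ⊆ NEXPTIME := by
  have hp' : (0 : ℝ) < p := by exact_mod_cast hp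
  have hq' : (0 : ℝ) < q := by exact_mod_cast hq
  have hpq1 : (p : ℝ) < κ * q := by
    rw [div_lt_iff₀ hq'] at hpq
    exact hpq
  have hpq2 : p < q := by
    have : (p : ℝ) < q := by nlinarith
    exact_mod_cast this
  have hδ : 0 < κ * q - p := by linarith
  obtain ⟨e, he⟩ := exists_nat_ge (4 / (κ * q - p) + 1)
  have he1 : (1 : ℝ) ≤ e := by
    have : 0 < 4 / (κ * q - p) := by positivity
    linarith
  have he0 : 1 ≤ e := by exact_mod_cast he1
  have he2 : 4 ≤ (e : ℝ) * (κ * q - p) := by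
    have h3 : 4 / (κ * q - p) ≤ e := by linarith
    rwa [div_le_iff₀ hδ] at h3
  obtain ⟨e₂, he₂⟩ := exists_nat_ge ((6 * (q * e : ℕ) + 2) / (κ * q - p) + 1)
  have he₂1 : (1 : ℝ) ≤ e₂ := by
    have : 0 ≤ (6 * ((q * e : ℕ) : ℝ) + 2) / (κ * q - p) := by positivity
    linarith
  have he₂0 : 1 ≤ e₂ := by exact_mod_cast he₂1
  have he₂2 : 6 * ((q * e : ℕ) : ℝ) + 2 ≤ (e₂ : ℝ) * (κ * q - p) := by
    have h3 : (6 * ((q * e : ℕ) : ℝ) + 2) / (κ * q - p) ≤ e₂ := by linarith
    rwa [div_le_iff₀ hδ] at h3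
  intro L hL
  rw [mem_NEXPTIME_iff]
  refine nen_of_exc (C := q * e) (K := p * e) (C₂ := q * e₂) (K₂ := p * e₂) ?_ ?_ ?_ ?_
    (excT_of_wrong hp hq h2 (majH_of_unary h1) he0 ?_)
    (excT_of_wrong hp hq h2 (majH_of_unary h1) he₂0 ?_) (majH_of_unary h1) (esn_of_mem hL)
  · exact Nat.mul_pos hq he0
  · exact Nat.mul_le_mul_right _ hpq2.le
  · exact Nat.mul_pos hq he₂0
  · exact Nat.mul_le_mul_right _ hpq2.le
  · push_cast
    nlinarith
  · push_cast at he₂2 ⊢
    nlinarith

/-- Few values are avoided by one string. -/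
lemma exists_avoid (f : List Bool → List Bool) {n e ℓ : ℕ} (h : e < ℓ) :
    ∃ v : List Bool, v.length = ℓ ∧ ∀ x : List Bool, x.length = n → val x < 2 ^ e → v ≠ f x := by
  classical
  let I : Finset ℕ := (Finset.range (2 ^ e)).image fun z => val (f (bitsOf n z))
  have h1 : I.card < (Finset.range (2 ^ ℓ)).card := by
    rw [Finset.card_range]
    refine lt_of_le_of_lt Finset.card_image_le ?_
    rw [Finset.card_range]
    exact Nat.pow_lt_pow_right (by norm_num) h
  obtain ⟨u, hu, hu2⟩ := Finset.exists_mem_notMem_of_card_lt_card h1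
  rw [Finset.mem_range] at hu
  refine ⟨bitsOf ℓ u, length_bitsOf _ _, fun x hx hv he => hu2 ?_⟩
  rw [Finset.mem_image]
  refine ⟨val x, Finset.mem_range.2 hv, ?_⟩
  have h2 := bitsOf_val x
  rw [hx] at h2
  rw [h2, ← he, val_bitsOf hu]

/-- Below the threshold wrong values are always certified. -/
theorem wrong_of_lt {p q : ℕ} (_hp : 0 < p) (hq : 0 < q) {κ : ℝ} (hκ : κ ≤ 1)
    (hpq : κ < (p / q : ℝ)) : WrongValues p q κ := by
  classical
  intro f hf _
  have hp' : (0 : ℝ) < p := by exact_mod_cast _hp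
  have hq' : (0 : ℝ) < q := by exact_mod_cast hq
  obtain ⟨t, ht1, ht2⟩ := exists_rat_btwn (show max κ 0 < (p / q : ℝ) from
    max_lt hpq (by positivity))
  have ht0 : 0 < t := by
    have : (0 : ℝ) < t := lt_of_le_of_lt (le_max_right _ _) ht1
    exact_mod_cast this
  obtain ⟨r, hr⟩ : ∃ r : ℕ, r = t.num.toNat := ⟨_, rfl⟩
  obtain ⟨s, hs⟩ : ∃ s : ℕ, s = t.den := ⟨_, rfl⟩
  have hs0 : 0 < s := by rw [hs]; exact t.den_pos
  have hs' : (0 : ℝ) < s := by exact_mod_cast hs0
  have htrs : (t : ℝ) = r / s := by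
    have h1 : ((t.num.toNat : ℕ) : ℤ) = t.num := Int.toNat_of_nonneg (by
      have := Rat.num_pos.2 ht0
      omega)
    have h2 : ((r : ℤ) : ℝ) = (t.num : ℝ) := by rw [hr, h1]
    have h3 : (t : ℝ) = (t.num : ℝ) / (t.den : ℝ) := by exact_mod_cast (Rat.num_div_den t).symm
    rw [h3, ← h2, hs]
    push_cast
    rfl
  have hκt : κ < r / s := by
    rw [← htrs]
    exact lt_of_le_of_lt (le_max_left _ _) ht1
  have htd : (r / s : ℝ) < p / q := by rw [← htrs]; exact ht2
  obtain ⟨n₀, hn₀⟩ := exists_nat_ge (3 / (p / q - r / s : ℝ))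
  have hδ : (0 : ℝ) < p / q - r / s := by linarith
  -- the exponents
  have hexp : ∀ n ≥ n₀, r * n / s + 1 < p * n / q := by
    intro n hn
    have h1 : (n₀ : ℝ) ≤ n := by exact_mod_cast hn
    have h2 : 3 / (p / q - r / s : ℝ) ≤ n := hn₀.trans h1
    rw [div_le_iff₀ hδ] at h2
    have h3 : ((r * n / s : ℕ) : ℝ) ≤ r / s * n := by
      have := Nat.cast_div_le (α := ℝ) (m := r * n) (n := s)
      refine this.trans (le_of_eq ?_)
      push_cast
      ring
    have h4 : (p / q : ℝ) * n < ((p * n / q : ℕ) : ℝ) + 1 := by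
      have h5 := Nat.lt_floor_add_one (((p * n : ℕ) : ℝ) / (q : ℕ))
      rw [Nat.floor_div_eq_div] at h5
      refine lt_of_eq_of_lt ?_ h5
      push_cast
      ring
    have h5 : ((r * n / s : ℕ) : ℝ) + 1 < ((p * n / q : ℕ) : ℝ) := by nlinarith
    exact_mod_cast h5
  have hex : ∀ n, ∃ v : List Bool, v.length = p * n / q ∧ (n₀ ≤ n → ∀ x : List Bool,
      x.length = n → val x < 2 ^ (r * n / s + 1) → v ≠ f x) := by
    intro n
    by_cases hn : n₀ ≤ n
    · obtain ⟨v, hv1, hv2⟩ := exists_avoid f (n := n) (hexp n hn)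
      exact ⟨v, hv1, fun _ => hv2⟩
    · exact ⟨List.replicate (p * n / q) false, by simp, fun h => absurd h hn⟩
  choose a ha1 ha2 using hex
  let V : Set (List Bool) := {y | ∃ x v, y = pairStr v (pairStr x v) ∧ n₀ ≤ x.length ∧
    val x < 2 ^ (r * x.length / s + 1)}
  have hV : V ∈ NEXPTIME := by
    refine mem_NEXPTIME_of_npp (P := fun y : List Bool × ℕ =>
      (y.1 = pairStr (fstS y.1) (pairStr (fstS (sndS y.1)) (fstS y.1)) ∧
      n₀ ≤ (fstS (sndS y.1)).length) ∧
      valB y.2 (fstS (sndS y.1)) < powB y.2 (r * (fstS (sndS y.1)).length / s + 1)) ?_ (r + 1) ?_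
    · exact NPp.and (NPp.and (NPp.of_ptime (by fun_prop)) (NPp.of_ptime (by fun_prop)))
        (NPp.of_ptime (by fun_prop))
    · intro y
      obtain ⟨N, hN⟩ : ∃ N, N = 2 ^ ((r + 1) * (y.length + 1)) := ⟨_, rfl⟩
      rw [← hN]
      have key : ∀ x v : List Bool, y = pairStr v (pairStr x v) →
          (valB N x < powB N (r * x.length / s + 1) ↔ val x < 2 ^ (r * x.length / s + 1)) := by
        intro x v hy
        have hl : x.length ≤ y.length := by
          rw [hy, length_pairStr, length_pairStr]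
          omega
        have h1 : 2 ^ x.length ≤ N := by
          rw [hN]
          refine Nat.pow_le_pow_right (by norm_num) ?_
          nlinarith
        have h2 : 2 ^ (r * x.length / s + 1) ≤ N := by
          rw [hN]
          refine Nat.pow_le_pow_right (by norm_num) ?_
          have h3 : r * x.length / s ≤ r * x.length := Nat.div_le_self _ _
          nlinarith
        have h3 := val_lt x
        rw [valB_eq (by omega), powB_eq h2]
      constructor
      · rintro ⟨x, v, hy, h1, h2⟩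
        have e1 : fstS y = v := by rw [hy, fstS_pair]
        have e2 : fstS (sndS y) = x := by rw [hy, sndS_pair, fstS_pair]
        simp only
        rw [e1, e2]
        exact ⟨⟨hy, h1⟩, (key x v hy).2 h2⟩
      · rintro ⟨⟨hy, h1⟩, h2⟩
        exact ⟨_, _, hy, h1, (key _ _ hy).1 h2⟩
  have hVm : ∀ x v : List Bool, pairStr (a x.length) (pairStr x v) ∈ V ↔ v = a x.length ∧
      n₀ ≤ x.length ∧ val x < 2 ^ (r * x.length / s + 1) := by
    intro x v
    constructor
    · rintro ⟨x', v', h1, h2, h3⟩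
      obtain ⟨h4, h5⟩ := pairStr_inj h1
      obtain ⟨rfl, rfl⟩ := pairStr_inj h5
      exact ⟨h4.symm, h2, h3⟩
    · rintro ⟨h1, h2, h3⟩
      exact ⟨x, v, by rw [← h1], h2, h3⟩
  refine ⟨V, hV, a, p, fun n => ?_, fun x v hv => ?_, n₀, fun n hn => ?_⟩
  · rw [ha1]
    refine (Nat.div_le_self _ _).trans ?_
    exact Nat.mul_le_mul_left _ (by omega)
  · rw [hVm] at hv
    obtain ⟨h1, h2, h3⟩ := hv
    refine ⟨?_, ?_⟩
    · rw [h1, ha1, hf]
    · rw [h1]
      exact ha2 _ h2 x rfl h3
  · obtain ⟨A, hA⟩ : ∃ A : Set (List Bool), ∀ x, x ∈ A ↔ val x < 2 ^ (r * n / s + 1) :=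
      ⟨{x | val x < 2 ^ (r * n / s + 1)}, fun _ => Iff.rfl⟩
    have e1 : {x : List Bool | x.length = n ∧ ∃ v, pairStr (a n) (pairStr x v) ∈ V} =
        {x | x ∈ A ∧ x.length = n} := by
      ext x
      simp only [Set.mem_ofPred_eq, hA]
      constructor
      · rintro ⟨rfl, v, hv⟩
        rw [hVm] at hv
        exact ⟨hv.2.2, rfl⟩
      · rintro ⟨h1, rfl⟩
        exact ⟨rfl, a x.length, (hVm _ _).2 ⟨rfl, hn, h1⟩⟩
    rw [e1, ncard_eq]
    have h3 : (0 : ℝ) ≤ n := Nat.cast_nonneg n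
    rcases le_total n (r * n / s + 1) with h4 | h4
    · rw [Finset.filter_true_of_mem, Finset.card_range]
      · push_cast
        rw [← Real.rpow_natCast 2 n]
        refine Real.rpow_le_rpow_of_exponent_le (by norm_num) ?_
        nlinarith
      · intro z hz
        rw [Finset.mem_range] at hz
        rw [hA, val_bitsOf hz]
        exact lt_of_lt_of_le hz (Nat.pow_le_pow_right (by norm_num) h4)
    · have h5 : (Finset.range (2 ^ (r * n / s + 1))).card ≤ ((Finset.range (2 ^ n)).filter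
          fun z => bitsOf n z ∈ A).card := by
        refine Finset.card_le_card fun z hz => ?_
        rw [Finset.mem_range] at hz
        have h6 : z < 2 ^ n := lt_of_lt_of_le hz (Nat.pow_le_pow_right (by norm_num) h4)
        rw [Finset.mem_filter, Finset.mem_range]
        refine ⟨h6, ?_⟩
        rwa [hA, val_bitsOf h6]
      rw [Finset.card_range] at h5
      have h6 : (2 : ℝ) ^ (κ * n) ≤ ((2 ^ (r * n / s + 1) : ℕ) : ℝ) := by
        push_cast
        rw [← Real.rpow_natCast 2 (r * n / s + 1)]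
        refine Real.rpow_le_rpow_of_exponent_le (by norm_num) ?_
        have h7 := Nat.lt_floor_add_one (((r * n : ℕ) : ℝ) / (s : ℕ))
        rw [Nat.floor_div_eq_div] at h7
        push_cast at h7 ⊢
        have h8 : (r : ℝ) * n / s = r / s * n := by ring
        rw [h8] at h7
        have h9 : κ * n ≤ r / s * n := mul_le_mul_of_nonneg_right hκt.le h3
        linarith
      exact h6.trans (by exact_mod_cast h5)

end Pool.Agent.H66.NX
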