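import Pool.Agent.H48.NE.Defs

/-!
# Certified wrong values
-/

namespace Pool.Agent.H66.NX

open Pool.Agent.H48.NE

/-- Every unary language (set of strings without the letter `0`) in `EXPSPACE` is in
`NEXPTIME`. -/
def UnaryCollapse : Prop :=
  ∀ U ∈ EXPSPACE, (∀ x ∈ U, ∀ b ∈ x, b = true) → U ∈ NEXPTIME

/-- For every function `f` on strings with `|f(x)| = ⌊p |x| / q⌋` whose graph is in `EXPSPACE`
there are a language `V` in `NEXPTIME` and advice strings `a(n)` of length `O(n)` such that
`(a(|x|), (x, v)) ∈ V` implies that `v` has the length of `f(x)` but is not `f(x)`, and for every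
large `n` at least `2^(κ n)` of the strings `x` of length `n` have such a certified wrong value
`v`. -/
def WrongValues (p q : ℕ) (κ : ℝ) : Prop :=
  ∀ f : List Bool → List Bool, (∀ x, (f x).length = p * x.length / q) →
    {y | ∃ x, y = pairStr x (f x)} ∈ EXPSPACE →
    ∃ V ∈ NEXPTIME, ∃ (a : ℕ → List Bool) (c : ℕ), (∀ n, (a n).length ≤ c * (n + 1)) ∧
      (∀ x v, pairStr (a x.length) (pairStr x v) ∈ V → v.length = (f x).length ∧ v ≠ f x) ∧
      ∃ n₀ : ℕ, ∀ n ≥ n₀, (2 : ℝ) ^ (κ * n) ≤
        {x : List Bool | x.length = n ∧ ∃ v, pairStr (a n) (pairStr x v) ∈ V}.ncard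

end Pool.Agent.H66.NX
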