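import Pool.Agent.H66.NX.Cnt

/-!
# Counting tables which hit given values too rarely
-/

namespace Pool.Agent.H66.NX

open Pool.Agent.H48.NE

set_option maxHeartbeats 1000000

lemma exp_neg_le {y : ℝ} (hy : 0 ≤ y) : Real.exp (-y) ≤ 1 - y + y ^ 2 / 2 := by
  have h1 := Real.quadratic_le_exp_of_nonneg hy
  have h2 : 0 < 1 + y + y ^ 2 / 2 := by positivity
  have h3 : Real.exp (-y) * Real.exp y = 1 := by
    rw [← Real.exp_add]
    simp
  have h4 : Real.exp (-y) * (1 + y + y ^ 2 / 2) ≤ 1 := by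
    calc Real.exp (-y) * (1 + y + y ^ 2 / 2) ≤ Real.exp (-y) * Real.exp y :=
          mul_le_mul_of_nonneg_left h1 (Real.exp_pos _).le
      _ = 1 := h3
  have h5 : 1 ≤ (1 - y + y ^ 2 / 2) * (1 + y + y ^ 2 / 2) := by nlinarith [sq_nonneg (y ^ 2)]
  have h6 : Real.exp (-y) * (1 + y + y ^ 2 / 2) ≤
      (1 - y + y ^ 2 / 2) * (1 + y + y ^ 2 / 2) := h4.trans h5
  exact le_of_mul_le_mul_right h6 h2

open Classical in
/-- One factor of the moment generating function. -/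
lemma sum_match_le {B k : ℕ} (hk : k ≤ B) (v : ℕ) {y : ℝ} (hy : 0 ≤ y) :
    ∑ b : Fin B → Bool, (if ∀ i : Fin B, (i : ℕ) < k → b i = vb v i then Real.exp (-y) else 1) ≤
      2 ^ B * Real.exp (-((y - y ^ 2 / 2) / 2 ^ k)) := by
  obtain ⟨c, hc⟩ : ∃ c, c = ((Finset.univ : Finset (Fin B → Bool)).filter fun b =>
      ∀ i : Fin B, (i : ℕ) < k → b i = vb v i).card := ⟨_, rfl⟩
  have h1 : (c : ℝ) * 2 ^ k = 2 ^ B := by
    have := card_match hk v
    rw [hc]
    exact_mod_cast this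
  have h2 : ∑ b : Fin B → Bool, (if ∀ i : Fin B, (i : ℕ) < k → b i = vb v i then Real.exp (-y)
      else (1 : ℝ)) = 2 ^ B - c * (1 - Real.exp (-y)) := by
    have e1 : ∀ b : Fin B → Bool, (if ∀ i : Fin B, (i : ℕ) < k → b i = vb v i then
        Real.exp (-y) else (1 : ℝ)) = 1 - (if ∀ i : Fin B, (i : ℕ) < k → b i = vb v i then
        (1 : ℝ) else 0) * (1 - Real.exp (-y)) := by
      intro b
      split_ifs <;> ring
    simp only [e1]
    rw [Finset.sum_sub_distrib, ← Finset.sum_mul, Finset.sum_boole, ← hc]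
    simp
  rw [h2]
  have hpk : (0 : ℝ) < 2 ^ k := by positivity
  have h3 : (c : ℝ) = 2 ^ B / 2 ^ k := by
    rw [← h1]
    field_simp
  have h4 := exp_neg_le hy
  have h5 : (2 : ℝ) ^ B - c * (1 - Real.exp (-y)) ≤ 2 ^ B * (1 + -((y - y ^ 2 / 2) / 2 ^ k)) := by
    rw [h3]
    have h6 : (2 : ℝ) ^ B * (1 + -((y - y ^ 2 / 2) / 2 ^ k)) =
        2 ^ B - 2 ^ B / 2 ^ k * (y - y ^ 2 / 2) := by
      field_simp
      ring
    rw [h6]
    have h7 : (0 : ℝ) ≤ 2 ^ B / 2 ^ k := by positivity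
    nlinarith
  refine h5.trans (mul_le_mul_of_nonneg_left ?_ (by positivity))
  have := Real.add_one_le_exp (-((y - y ^ 2 / 2) / 2 ^ k))
  linarith

open Classical in
lemma sum_J {M : ℕ} (J : Finset ℕ) (hJ : ∀ j ∈ J, j < M) (F : ℕ → ℝ) :
    ∑ j ∈ J, F j = ∑ j : Fin M, if (j : ℕ) ∈ J then F j else 0 := by
  have e6 : (Finset.range M).filter (fun j => j ∈ J) = J := by
    ext j
    rw [Finset.mem_filter, Finset.mem_range]
    exact ⟨fun h => h.2, fun h => ⟨hJ j h, h⟩⟩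
  rw [Fin.sum_univ_eq_sum_range (fun j => if j ∈ J then F j else 0) M, ← Finset.sum_filter, e6]

open Classical in
/-- The weighted number of hits. -/
noncomputable def wh (B k : ℕ) (J : Finset ℕ) (v s : ℕ → ℕ) (g : ℕ → Bool) : ℕ :=
  ∑ j ∈ J, if ∀ i < k, g (j * B + i) = vb (v j) i then s j else 0

open Classical in
theorem mgf_le {M B k : ℕ} (hk : k ≤ B) (J : Finset ℕ) (hJ : ∀ j ∈ J, j < M) (v s : ℕ → ℕ)
    {lam : ℝ} (hl : 0 ≤ lam) :
    ∑ g : Fin (M * B) → Bool, Real.exp (-(lam * wh B k J v s (ext g))) ≤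
      2 ^ (M * B) * Real.exp (-((lam * (∑ j ∈ J, (s j : ℝ)) -
        lam ^ 2 * (∑ j ∈ J, (s j : ℝ) ^ 2) / 2) / 2 ^ k)) := by
  let F : Fin M → (Fin B → Bool) → ℝ := fun j b =>
    if (j : ℕ) ∈ J then
      (if ∀ i : Fin B, (i : ℕ) < k → b i = vb (v j) i then Real.exp (-(lam * s j)) else 1) else 1
  have h1 : ∀ g : Fin (M * B) → Bool, Real.exp (-(lam * wh B k J v s (ext g))) =
      ∏ j : Fin M, F j (fun i => g (finProdFinEquiv (j, i))) := by
    intro g
    have e1 : -(lam * (wh B k J v s (ext g) : ℝ)) =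
        ∑ j ∈ J, (if ∀ i < k, ext g (j * B + i) = vb (v j) i then -(lam * s j) else 0) := by
      unfold wh
      push_cast
      rw [Finset.mul_sum, ← Finset.sum_neg_distrib]
      refine Finset.sum_congr rfl fun j _ => ?_
      split_ifs <;> simp
    have e2 : ∑ j ∈ J, (if ∀ i < k, ext g (j * B + i) = vb (v j) i then -(lam * (s j : ℝ)) else 0) =
        ∑ j : Fin M, (if (j : ℕ) ∈ J then
          (if ∀ i < k, ext g (j * B + i) = vb (v j) i then -(lam * (s j : ℝ)) else 0) else 0) :=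
      sum_J J hJ _
    rw [e1, e2, Real.exp_sum]
    refine Finset.prod_congr rfl fun j _ => ?_
    simp only [F]
    by_cases hj : (j : ℕ) ∈ J
    · rw [if_pos hj, if_pos hj]
      have e3 : (∀ i < k, ext g (j * B + i) = vb (v j) i) ↔
          ∀ i : Fin B, (i : ℕ) < k → g (finProdFinEquiv (j, i)) = vb (v j) i := by
        have e4 : ∀ i : Fin B, ext g (j * B + i) = g (finProdFinEquiv (j, i)) := by
          intro i
          have e : ((finProdFinEquiv (j, i) : Fin (M * B)) : ℕ) = j * B + i := by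
            simp [finProdFinEquiv]
            ring
          have h2 : (j : ℕ) * B + i < M * B := by
            rw [← e]
            exact (finProdFinEquiv (j, i)).2
          rw [ext_of_lt _ h2]
          congr 1
          exact Fin.ext e.symm
        constructor
        · intro h i hi
          rw [← e4]
          exact h i hi
        · intro h i hi
          have := h ⟨i, by omega⟩ hi
          rw [← e4] at this
          exact this
      by_cases h3 : ∀ i < k, ext g (j * B + i) = vb (v j) i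
      · rw [if_pos h3, if_pos (e3.1 h3)]
      · rw [if_neg h3, if_neg (fun h => h3 (e3.2 h)), Real.exp_zero]
    · rw [if_neg hj, if_neg hj, Real.exp_zero]
  let eq : (Fin (M * B) → Bool) ≃ (Fin M → Fin B → Bool) :=
    (Equiv.arrowCongr finProdFinEquiv.symm (Equiv.refl Bool)).trans (Equiv.curry _ _ _)
  have h2 : ∑ g : Fin (M * B) → Bool, Real.exp (-(lam * wh B k J v s (ext g))) =
      ∏ j : Fin M, ∑ b : Fin B → Bool, F j b := by
    rw [Finset.prod_univ_sum, Fintype.piFinset_univ]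
    rw [← Equiv.sum_comp eq (fun h => ∏ j : Fin M, F j (h j))]
    refine Finset.sum_congr rfl fun g _ => ?_
    rw [h1]
    rfl
  rw [h2]
  have h3 : ∀ j : Fin M, ∑ b : Fin B → Bool, F j b ≤ 2 ^ B * (if (j : ℕ) ∈ J then
      Real.exp (-((lam * s j - (lam * s j) ^ 2 / 2) / 2 ^ k)) else 1) := by
    intro j
    simp only [F]
    by_cases hj : (j : ℕ) ∈ J
    · simp only [if_pos hj]
      exact sum_match_le hk (v j) (by positivity)
    · simp only [if_neg hj]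
      simp
  have h4 : ∀ j : Fin M, 0 ≤ ∑ b : Fin B → Bool, F j b := by
    intro j
    refine Finset.sum_nonneg fun b _ => ?_
    simp only [F]
    split_ifs <;> positivity
  refine (Finset.prod_le_prod (fun j _ => h4 j) fun j _ => h3 j).trans ?_
  rw [Finset.prod_mul_distrib, Finset.prod_const, Finset.card_univ, Fintype.card_fin, ← pow_mul,
    Nat.mul_comm B M]
  refine mul_le_mul_of_nonneg_left (le_of_eq ?_) (by positivity)
  have e5 : ∏ j : Fin M, (if (j : ℕ) ∈ J then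
      Real.exp (-((lam * s j - (lam * s j) ^ 2 / 2) / 2 ^ k)) else 1) =
      Real.exp (∑ j : Fin M, (if (j : ℕ) ∈ J then
      -((lam * s j - (lam * s j) ^ 2 / 2) / 2 ^ k) else 0)) := by
    rw [Real.exp_sum]
    refine Finset.prod_congr rfl fun j _ => ?_
    split_ifs <;> simp
  rw [e5]
  congr 1
  rw [← sum_J J hJ (fun j => -((lam * s j - (lam * s j) ^ 2 / 2) / 2 ^ k)),
    Finset.sum_neg_distrib, ← Finset.sum_div, Finset.sum_sub_distrib, Finset.mul_sum,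
    Finset.mul_sum, Finset.sum_div]
  congr 3
  refine Finset.sum_congr rfl fun j _ => ?_
  ring

/-- Tables which hit given values too rarely are rare. -/
theorem card_dev {M B k e E : ℕ} (hk : k ≤ B) (J : Finset ℕ) (hJ : ∀ j ∈ J, j < M)
    (v s : ℕ → ℕ) (hpos : 0 < ∑ j ∈ J, s j)
    (hE : E * 2 ^ (k + 2 * e + 1) * ∑ j ∈ J, s j ^ 2 ≤ (∑ j ∈ J, s j) ^ 2) :
    ((Finset.univ : Finset (Fin (M * B) → Bool)).filter fun g =>
      2 ^ (k + e) * wh B k J v s (ext g) ≤ (2 ^ e - 1) * ∑ j ∈ J, s j).card * 2 ^ E ≤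
      2 ^ (M * B) := by
  classical
  obtain ⟨S₁, hS₁⟩ : ∃ S₁ : ℝ, S₁ = ∑ j ∈ J, (s j : ℝ) := ⟨_, rfl⟩
  obtain ⟨S₂, hS₂⟩ : ∃ S₂ : ℝ, S₂ = ∑ j ∈ J, (s j : ℝ) ^ 2 := ⟨_, rfl⟩
  have h1 : 0 < S₁ := by
    rw [hS₁]
    exact_mod_cast hpos
  have hE' : (E : ℝ) * 2 ^ (k + 2 * e + 1) * S₂ ≤ S₁ ^ 2 := by
    rw [hS₁, hS₂]
    exact_mod_cast hE
  have h2 : 0 < S₂ := by
    have h3 : 0 ≤ S₂ := by
      rw [hS₂]
      positivity
    rcases h3.eq_or_lt with h4 | h4
    · exfalso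
      have h5 : ∀ j ∈ J, (s j : ℝ) ^ 2 = 0 := by
        rw [hS₂] at h4
        exact (Finset.sum_eq_zero_iff_of_nonneg fun j _ => by positivity).1 h4.symm
      have h6 : S₁ = 0 := by
        rw [hS₁]
        refine Finset.sum_eq_zero fun j hj => ?_
        have := h5 j hj
        exact pow_eq_zero_iff (by norm_num) |>.1 this
      linarith
    · exact h4
  obtain ⟨lam, hlam⟩ : ∃ lam : ℝ, lam = S₁ / (2 ^ e * S₂) := ⟨_, rfl⟩
  have hl : 0 < lam := by
    rw [hlam]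
    positivity
  have hm := mgf_le hk J hJ v s hl.le
  rw [← hS₁, ← hS₂] at hm
  obtain ⟨G, hG⟩ : ∃ G, G = (Finset.univ : Finset (Fin (M * B) → Bool)).filter fun g =>
      2 ^ (k + e) * wh B k J v s (ext g) ≤ (2 ^ e - 1) * ∑ j ∈ J, s j := ⟨_, rfl⟩
  rw [← hG]
  have h3 : ∀ g ∈ G, Real.exp (-(lam * ((1 - 1 / 2 ^ e) * S₁ / 2 ^ k))) ≤
      Real.exp (-(lam * wh B k J v s (ext g))) := by
    intro g hg
    rw [hG, Finset.mem_filter] at hg
    refine Real.exp_le_exp.2 (neg_le_neg (mul_le_mul_of_nonneg_left ?_ hl.le))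
    have h4 := hg.2
    have h5 : (2 : ℝ) ^ (k + e) * wh B k J v s (ext g) ≤ (2 ^ e - 1) * S₁ := by
      have h6 : ((2 ^ (k + e) * wh B k J v s (ext g) : ℕ) : ℝ) ≤
          (((2 ^ e - 1) * ∑ j ∈ J, s j : ℕ) : ℝ) := by exact_mod_cast h4
      push_cast [Nat.one_le_two_pow] at h6
      rw [hS₁]
      exact h6
    rw [le_div_iff₀ (by positivity)]
    have h6 : (1 - 1 / (2 : ℝ) ^ e) * S₁ = (2 ^ e - 1) * S₁ / 2 ^ e := by
      field_simp
    rw [h6, le_div_iff₀ (by positivity)]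
    calc (wh B k J v s (ext g) : ℝ) * 2 ^ k * 2 ^ e = 2 ^ (k + e) * wh B k J v s (ext g) := by
          rw [pow_add]
          ring
      _ ≤ _ := h5
  have h4 : (G.card : ℝ) * Real.exp (-(lam * ((1 - 1 / 2 ^ e) * S₁ / 2 ^ k))) ≤
      2 ^ (M * B) * Real.exp (-((lam * S₁ - lam ^ 2 * S₂ / 2) / 2 ^ k)) := by
    calc (G.card : ℝ) * Real.exp (-(lam * ((1 - 1 / 2 ^ e) * S₁ / 2 ^ k))) =
        ∑ g ∈ G, Real.exp (-(lam * ((1 - 1 / 2 ^ e) * S₁ / 2 ^ k))) := by
          rw [Finset.sum_const, nsmul_eq_mul]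
      _ ≤ ∑ g ∈ G, Real.exp (-(lam * wh B k J v s (ext g))) := Finset.sum_le_sum h3
      _ ≤ ∑ g : Fin (M * B) → Bool, Real.exp (-(lam * wh B k J v s (ext g))) :=
          Finset.sum_le_sum_of_subset_of_nonneg (Finset.subset_univ _)
            (fun _ _ _ => (Real.exp_pos _).le)
      _ ≤ _ := hm
  have h5 : Real.exp (-((lam * S₁ - lam ^ 2 * S₂ / 2) / 2 ^ k)) =
      Real.exp (-(lam * ((1 - 1 / 2 ^ e) * S₁ / 2 ^ k))) *
        Real.exp (-(S₁ ^ 2 / (2 ^ (k + 2 * e + 1) * S₂))) := by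
    rw [← Real.exp_add]
    congr 1
    rw [hlam, pow_add, pow_add, pow_mul']
    field_simp
    ring
  rw [h5] at h4
  have h6 : (G.card : ℝ) ≤ 2 ^ (M * B) * Real.exp (-(S₁ ^ 2 / (2 ^ (k + 2 * e + 1) * S₂))) := by
    have h7 : 0 < Real.exp (-(lam * ((1 - 1 / 2 ^ e) * S₁ / 2 ^ k))) := Real.exp_pos _
    refine le_of_mul_le_mul_right ?_ h7
    calc (G.card : ℝ) * Real.exp (-(lam * ((1 - 1 / 2 ^ e) * S₁ / 2 ^ k))) ≤ _ := h4
      _ = _ := by ring
  have h7 : (E : ℝ) ≤ S₁ ^ 2 / (2 ^ (k + 2 * e + 1) * S₂) := by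
    rw [le_div_iff₀ (by positivity)]
    calc (E : ℝ) * (2 ^ (k + 2 * e + 1) * S₂) = E * 2 ^ (k + 2 * e + 1) * S₂ := by ring
      _ ≤ _ := hE'
  have h8 : Real.exp (-(S₁ ^ 2 / (2 ^ (k + 2 * e + 1) * S₂))) * 2 ^ E ≤ 1 := by
    have h9 : (2 : ℝ) ^ E ≤ Real.exp E := by
      have h10 : (2 : ℝ) ≤ Real.exp 1 := by
        have := Real.add_one_le_exp (1 : ℝ)
        linarith
      calc (2 : ℝ) ^ E ≤ (Real.exp 1) ^ E := pow_le_pow_left₀ (by norm_num) h10 _
        _ = Real.exp E := by rw [← Real.exp_nat_mul, mul_one]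
    calc Real.exp (-(S₁ ^ 2 / (2 ^ (k + 2 * e + 1) * S₂))) * 2 ^ E ≤
        Real.exp (-(S₁ ^ 2 / (2 ^ (k + 2 * e + 1) * S₂))) * Real.exp E :=
          mul_le_mul_of_nonneg_left h9 (Real.exp_pos _).le
      _ = Real.exp (-(S₁ ^ 2 / (2 ^ (k + 2 * e + 1) * S₂)) + E) := by rw [Real.exp_add]
      _ ≤ Real.exp 0 := Real.exp_le_exp.2 (by linarith)
      _ = 1 := Real.exp_zero
  have h9 : (G.card : ℝ) * 2 ^ E ≤ 2 ^ (M * B) := by
    calc (G.card : ℝ) * 2 ^ E ≤
        2 ^ (M * B) * Real.exp (-(S₁ ^ 2 / (2 ^ (k + 2 * e + 1) * S₂))) * 2 ^ E :=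
          mul_le_mul_of_nonneg_right h6 (by positivity)
      _ = 2 ^ (M * B) * (Real.exp (-(S₁ ^ 2 / (2 ^ (k + 2 * e + 1) * S₂))) * 2 ^ E) := by ring
      _ ≤ 2 ^ (M * B) * 1 := mul_le_mul_of_nonneg_left h8 (by positivity)
      _ = _ := mul_one _
  exact_mod_cast h9

end Pool.Agent.H66.NX
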