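import Pool.Agent.H66.NX.Cnt
import Pool.Agent.H48.NE.Era

/-!
# Random tables and excluded values
-/

namespace Pool.Agent.H66.NX

open Pool.Agent.H48.NE

set_option maxHeartbeats 1000000

/-- The bit `i` of the value at the position `z` of the codeword of the message `T`. -/
def kcw (a p : ℕ) (g : ℕ → Bool) (T : List Bool) (z i : ℕ) : Bool :=
  g ((z * 2 ^ a + hv T (z % p) p) * 2 ^ (2 * a) + i)

/-- The marked values are wrong: `W` marks pairs `(z, v)`, and `c z` is the value at `z`. -/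
def Avd (a k : ℕ) (W : ℕ → Bool) (c : ℕ → ℕ → Bool) : Prop :=
  ∀ z < 2 ^ a, ∀ v < 2 ^ k, W (z * 2 ^ k + v) = true → ∃ i < k, c z i ≠ vb v i

open Classical in
/-- The number of positions with a marked value. -/
noncomputable def nDm (a k : ℕ) (W : ℕ → Bool) : ℕ :=
  ((Finset.range (2 ^ a)).filter fun z => ∃ v < 2 ^ k, W (z * 2 ^ k + v) = true).card

/-- A table is bad if `t` codewords avoid the same marked values at `2^q` positions. -/
def BadX (n a k q t p : ℕ) (g : ℕ → Bool) : Prop := ∃ W : ℕ → Bool, ∃ Λ : Finset (List Bool),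
  2 ^ q ≤ nDm a k W ∧ Λ.card = t ∧ ∀ T ∈ Λ, T.length = 2 ^ n ∧ Avd a k W (kcw a p g T)

lemma card_le_image_add {ι κ : Type*} [DecidableEq ι] [DecidableEq κ] (Λ : Finset ι) (f : ι → κ) :
    Λ.card ≤ (Λ.image f).card +
      ∑ T ∈ Λ, ∑ T' ∈ Λ.erase T, if f T = f T' then 1 else 0 := by
  classical
  let U := Λ.filter fun T => ∃ T' ∈ Λ.erase T, f T = f T'
  have h1 : (Λ.filter fun T => ¬ ∃ T' ∈ Λ.erase T, f T = f T').card ≤ (Λ.image f).card := by
    refine Finset.card_le_card_of_injOn f ?_ ?_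
    · intro T hT
      rw [Finset.mem_coe, Finset.mem_filter] at hT
      exact Finset.mem_coe.2 (Finset.mem_image_of_mem _ hT.1)
    · intro T hT T' hT' h
      rw [Finset.mem_coe, Finset.mem_filter] at hT hT'
      by_contra hne
      exact hT.2 ⟨T', Finset.mem_erase.2 ⟨Ne.symm hne, hT'.1⟩, h⟩
  have h2 : U.card ≤ ∑ T ∈ Λ, ∑ T' ∈ Λ.erase T, if f T = f T' then 1 else 0 := by
    calc U.card = ∑ T ∈ U, 1 := by simp
      _ ≤ ∑ T ∈ U, ∑ T' ∈ Λ.erase T, (if f T = f T' then 1 else 0) := by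
          refine Finset.sum_le_sum fun T hT => ?_
          obtain ⟨T', hT', h⟩ := (Finset.mem_filter.1 hT).2
          calc 1 = if f T = f T' then 1 else 0 := by rw [if_pos h]
            _ ≤ _ := Finset.single_le_sum (f := fun T' => if f T = f T' then 1 else 0)
                (fun _ _ => Nat.zero_le _) hT'
      _ ≤ _ := Finset.sum_le_sum_of_subset (Finset.filter_subset _ _)
  have h3 := Finset.card_filter_add_card_filter_not (s := Λ)
    (p := fun T => ∃ T' ∈ Λ.erase T, f T = f T')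
  have h4 : U.card = (Λ.filter fun T => ∃ T' ∈ Λ.erase T, f T = f T').card := rfl
  omega

/-- The cells used by the codewords of `Λ` at the positions `z j`. -/
def cells (a p Q : ℕ) (zj : Fin Q → ℕ) (Λ : Finset (List Bool)) : Finset ℕ :=
  (Finset.univ : Finset (Fin Q)).biUnion fun j =>
    Λ.image fun T => zj j * 2 ^ a + hv T (zj j % p) p

lemma card_cells {n a p Q : ℕ} (hp : p.Prime) (hpa : p ≤ 2 ^ a) (hpa' : 2 ^ a ≤ 2 * p)
    (zj : Fin Q → ℕ) (hz : ∀ j, zj j < 2 ^ a) (hinj : Function.Injective zj)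
    (Λ : Finset (List Bool)) (hΛ : ∀ T ∈ Λ, T.length = 2 ^ n) :
    Q * Λ.card ≤ (cells a p Q zj Λ).card + Λ.card * (Λ.card * (2 * 2 ^ n)) := by
  classical
  have hdisj : (cells a p Q zj Λ).card =
      ∑ j : Fin Q, (Λ.image fun T => zj j * 2 ^ a + hv T (zj j % p) p).card := by
    unfold cells
    refine Finset.card_biUnion fun j _ j' _ hne => ?_
    rw [Function.onFun, Finset.disjoint_left]
    intro x hx hx'
    rw [Finset.mem_image] at hx hx'
    obtain ⟨T, -, rfl⟩ := hx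
    obtain ⟨T', -, h⟩ := hx'
    have h1 : hv T (zj j % p) p < 2 ^ a := lt_of_lt_of_le (hv_lt _ _ hp.pos) hpa
    have h2 : hv T' (zj j' % p) p < 2 ^ a := lt_of_lt_of_le (hv_lt _ _ hp.pos) hpa
    have h3 : zj j' = zj j := by
      have e1 : (zj j * 2 ^ a + hv T (zj j % p) p) / 2 ^ a = zj j := by
        rw [Nat.add_comm, Nat.add_mul_div_right _ _ (by positivity), Nat.div_eq_of_lt h1, zero_add]
      have e2 : (zj j' * 2 ^ a + hv T' (zj j' % p) p) / 2 ^ a = zj j' := by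
        rw [Nat.add_comm, Nat.add_mul_div_right _ _ (by positivity), Nat.div_eq_of_lt h2, zero_add]
      rw [← e1, ← h, e2]
    exact hne (hinj h3.symm)
  have hj : ∀ j : Fin Q, Λ.card ≤ (Λ.image fun T => zj j * 2 ^ a + hv T (zj j % p) p).card +
      ∑ T ∈ Λ, ∑ T' ∈ Λ.erase T, (if hv T (zj j % p) p = hv T' (zj j % p) p then 1 else 0) := by
    intro j
    refine (card_le_image_add Λ fun T => zj j * 2 ^ a + hv T (zj j % p) p).trans ?_
    refine Nat.add_le_add_left (le_of_eq ?_) _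
    refine Finset.sum_congr rfl fun T _ => Finset.sum_congr rfl fun T' _ => ?_
    simp only [Nat.add_left_cancel_iff]
  calc Q * Λ.card = ∑ j : Fin Q, Λ.card := by simp
    _ ≤ ∑ j : Fin Q, ((Λ.image fun T => zj j * 2 ^ a + hv T (zj j % p) p).card +
      ∑ T ∈ Λ, ∑ T' ∈ Λ.erase T, (if hv T (zj j % p) p = hv T' (zj j % p) p then 1 else 0)) :=
        Finset.sum_le_sum fun j _ => hj j
    _ = (cells a p Q zj Λ).card + ∑ T ∈ Λ, ∑ T' ∈ Λ.erase T, ∑ j : Fin Q,
        (if hv T (zj j % p) p = hv T' (zj j % p) p then 1 else 0) := by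
        rw [Finset.sum_add_distrib, hdisj, Finset.sum_comm]
        congr 1
        refine Finset.sum_congr rfl fun T _ => ?_
        rw [Finset.sum_comm]
    _ ≤ (cells a p Q zj Λ).card + ∑ T ∈ Λ, ∑ T' ∈ Λ.erase T, 2 * 2 ^ n := by
        refine Nat.add_le_add_left (Finset.sum_le_sum fun T hT => Finset.sum_le_sum
          fun T' hT' => ?_) _
        rw [Finset.mem_erase] at hT'
        have h1 := card_coll_le (M := 2 ^ a) hpa' hp (T := T) (T' := T')
          (by rw [hΛ T hT, hΛ T' hT'.2]) (Ne.symm hT'.1)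
        rw [hΛ T hT] at h1
        refine le_trans ?_ h1
        rw [Finset.sum_boole]
        simp only [Nat.cast_id]
        refine Finset.card_le_card_of_injOn zj ?_ hinj.injOn
        intro j hj
        rw [Finset.mem_coe, Finset.mem_filter] at hj
        rw [Finset.mem_coe, Finset.mem_filter, Finset.mem_range]
        exact ⟨hz j, hj.2⟩
    _ ≤ _ := by
        refine Nat.add_le_add_left ?_ _
        calc ∑ T ∈ Λ, ∑ T' ∈ Λ.erase T, 2 * 2 ^ n ≤ ∑ T ∈ Λ, Λ.card * (2 * 2 ^ n) := by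
              refine Finset.sum_le_sum fun T _ => ?_
              rw [Finset.sum_const, smul_eq_mul]
              exact Nat.mul_le_mul_right _ (Finset.card_le_card (Finset.erase_subset _ _))
          _ = _ := by rw [Finset.sum_const, smul_eq_mul]

open Classical in
/-- At most half of all tables are bad. -/
theorem card_badX {n a k q p K τ r : ℕ} (hp : p.Prime) (hpa : p ≤ 2 ^ a) (hpa' : 2 ^ a ≤ 2 * p)
    (hk : k ≤ 2 ^ (2 * a)) (hr : 8 * (a + k + 1) ≤ 2 ^ r) (hτ : k + r ≤ τ)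
    (hq : τ + n + 2 ≤ q) (hK : K = 2 ^ (2 * a) * 2 ^ (2 * a)) :
    ((Finset.univ : Finset (Fin K → Bool)).filter fun g =>
      BadX n a k q (2 ^ τ) p (ext g)).card * 2 ≤ 2 ^ K := by
  obtain ⟨Q, hQ⟩ : ∃ Q, Q = 2 ^ q := ⟨_, rfl⟩
  obtain ⟨t, ht⟩ : ∃ t, t = 2 ^ τ := ⟨_, rfl⟩
  have hQpos : 0 < Q := by rw [hQ]; positivity
  have htpos : 0 < t := by rw [ht]; positivity
  rw [← ht]
  let I : Finset ((Fin Q → Fin (2 ^ a) × Fin (2 ^ k)) × Finset (List Bool)) :=
    ((Finset.univ : Finset (Fin Q → Fin (2 ^ a) × Fin (2 ^ k))).filter fun f =>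
      Function.Injective fun j => (f j).1) ×ˢ (Finset.powersetCard t (allL (2 ^ n)))
  have hI : I.card ≤ 2 ^ ((a + k) * Q) * 2 ^ (2 ^ n * t) := by
    simp only [I]
    rw [Finset.card_product, Finset.card_powersetCard]
    refine Nat.mul_le_mul ?_ ?_
    · refine (Finset.card_filter_le _ _).trans ?_
      rw [Finset.card_univ]
      simp only [Fintype.card_fun, Fintype.card_prod, Fintype.card_fin]
      rw [← pow_add, ← pow_mul]
    · calc (allL (2 ^ n)).card.choose t ≤ (allL (2 ^ n)).card ^ t := Nat.choose_le_pow _ _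
        _ ≤ (2 ^ (2 ^ n)) ^ t := Nat.pow_le_pow_left (card_allL_le _) _
        _ = _ := by rw [← pow_mul]
  -- the exponent
  obtain ⟨E, hE⟩ : ∃ E, E = 2 ^ (τ - k - 1) * Q := ⟨_, rfl⟩
  have hr3 : 3 ≤ r := by
    by_contra hno
    have h1 : 2 ^ r ≤ 2 ^ 2 := Nat.pow_le_pow_right (by norm_num) (by omega)
    omega
  have hE1 : 2 ^ k * E * 2 = t * Q := by
    rw [hE, ht]
    have e1 : 2 ^ k * (2 ^ (τ - k - 1) * Q) * 2 = 2 ^ (k + (τ - k - 1) + 1) * Q := by
      rw [pow_add, pow_add]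
      ring
    rw [e1]
    congr 2
    omega
  have hE2 : 4 * (a + k + 1) * Q ≤ E := by
    rw [hE]
    refine Nat.mul_le_mul_right _ ?_
    have h1 : 2 ^ r ≤ 2 ^ (τ - k) := Nat.pow_le_pow_right (by norm_num) (by omega)
    have h2 : 2 ^ (τ - k) = 2 * 2 ^ (τ - k - 1) := by
      rw [← pow_succ']
      congr 1
      omega
    omega
  have hQn : 4 * (t * 2 ^ n) ≤ Q := by
    rw [hQ, ht, ← pow_add]
    have h1 : 4 * 2 ^ (τ + n) = 2 ^ (τ + n + 2) := by
      rw [pow_add 2 (τ + n) 2]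
      ring
    rw [h1]
    exact Nat.pow_le_pow_right (by norm_num) hq
  let Ev : (Fin Q → Fin (2 ^ a) × Fin (2 ^ k)) × Finset (List Bool) → (Fin K → Bool) → Prop :=
    fun x g => ∀ j ∈ cells a p Q (fun j => ((x.1 j).1 : ℕ)) x.2, ∃ i < k,
      ext g (j * 2 ^ (2 * a) + i) ≠ vb (((fun y : ℕ => if h : ∃ j : Fin Q,
        ((x.1 j).1 : ℕ) = y then ((x.1 h.choose).2 : ℕ) else 0)) (j / 2 ^ a)) i
  have hone : ∀ x ∈ I, ((Finset.univ : Finset (Fin K → Bool)).filter fun g =>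
      Ev x g).card * 2 ^ E ≤ 2 ^ K := by
    intro x hx
    simp only [I] at hx
    rw [Finset.mem_product, Finset.mem_filter, Finset.mem_powersetCard] at hx
    obtain ⟨⟨-, hf⟩, hq1, hq2⟩ := hx
    have hinj : Function.Injective fun j => ((x.1 j).1 : ℕ) := fun j j' h => hf (Fin.ext h)
    have hΛ : ∀ T ∈ x.2, T.length = 2 ^ n := fun T hT => mem_allL.1 (hq1 hT)
    have hc := card_cells hp hpa hpa' (fun j => ((x.1 j).1 : ℕ)) (fun j => (x.1 j).1.2) hinj x.2 hΛ
    rw [hq2] at hc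
    have hJ : ∀ j ∈ cells a p Q (fun j => ((x.1 j).1 : ℕ)) x.2, j < 2 ^ (2 * a) := by
      intro j hj
      unfold cells at hj
      rw [Finset.mem_biUnion] at hj
      obtain ⟨i, -, hi⟩ := hj
      rw [Finset.mem_image] at hi
      obtain ⟨T, -, rfl⟩ := hi
      have h1 : hv T (((x.1 i).1 : ℕ) % p) p < 2 ^ a := lt_of_lt_of_le (hv_lt _ _ hp.pos) hpa
      have h2 : ((x.1 i).1 : ℕ) < 2 ^ a := (x.1 i).1.2
      calc ((x.1 i).1 : ℕ) * 2 ^ a + hv T (((x.1 i).1 : ℕ) % p) p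
          < ((x.1 i).1 : ℕ) * 2 ^ a + 2 ^ a := by omega
        _ = (((x.1 i).1 : ℕ) + 1) * 2 ^ a := by ring
        _ ≤ 2 ^ a * 2 ^ a := Nat.mul_le_mul_right _ h2
        _ = _ := by rw [← pow_add]; congr 1; ring
    have h1 := card_avoid' (M := 2 ^ (2 * a)) (B := 2 ^ (2 * a)) (k := k) (E := E) hk
      (cells a p Q (fun j => ((x.1 j).1 : ℕ)) x.2) hJ
      (fun j => (fun y : ℕ => if h : ∃ j : Fin Q,
        ((x.1 j).1 : ℕ) = y then ((x.1 h.choose).2 : ℕ) else 0) (j / 2 ^ a)) ?_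
    · rw [← hK] at h1
      exact h1
    · have h3 : 2 * (t * (t * (2 * 2 ^ n))) ≤ t * Q := by
        calc 2 * (t * (t * (2 * 2 ^ n))) = t * (4 * (t * 2 ^ n)) := by ring
          _ ≤ t * Q := Nat.mul_le_mul_left _ hQn
      have h4 : Q * t = t * Q := Nat.mul_comm _ _
      omega
  have hsub : ((Finset.univ : Finset (Fin K → Bool)).filter fun g => BadX n a k q t p (ext g)) ⊆
      I.biUnion fun x => (Finset.univ : Finset (Fin K → Bool)).filter fun g => Ev x g := by
    intro g hg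
    rw [Finset.mem_filter] at hg
    obtain ⟨-, W, Λ, hW, hΛ1, hΛ2⟩ := hg
    rw [← hQ] at hW
    unfold nDm at hW
    obtain ⟨S, hS1, hS2⟩ := Finset.exists_subset_card_eq hW
    have hSlt : ∀ z ∈ S, z < 2 ^ a := fun z hz =>
      Finset.mem_range.1 (Finset.mem_filter.1 (hS1 hz)).1
    have hSv : ∀ z ∈ S, ∃ v, v < 2 ^ k ∧ W (z * 2 ^ k + v) = true := fun z hz =>
      (Finset.mem_filter.1 (hS1 hz)).2
    let em := S.orderEmbOfFin hS2
    have hem : ∀ j, em j ∈ S := fun j => Finset.orderEmbOfFin_mem S hS2 j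
    choose vf hvf1 hvf2 using hSv
    let f : Fin Q → Fin (2 ^ a) × Fin (2 ^ k) := fun j =>
      (⟨em j, hSlt _ (hem j)⟩, ⟨vf (em j) (hem j), hvf1 _ _⟩)
    have hf : Function.Injective fun j => (f j).1 := by
      intro j j' h
      have h1 : (em j : ℕ) = em j' := congrArg Fin.val h
      exact em.injective h1
    rw [Finset.mem_biUnion]
    refine ⟨(f, Λ), ?_, ?_⟩
    · simp only [I]
      rw [Finset.mem_product, Finset.mem_filter, Finset.mem_powersetCard]
      exact ⟨⟨Finset.mem_univ _, hf⟩, fun T hT => mem_allL.2 (hΛ2 T hT).1, hΛ1⟩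
    · rw [Finset.mem_filter]
      refine ⟨Finset.mem_univ _, ?_⟩
      simp only [Ev]
      intro j hj
      unfold cells at hj
      rw [Finset.mem_biUnion] at hj
      obtain ⟨i, -, hi⟩ := hj
      rw [Finset.mem_image] at hi
      obtain ⟨T, hT, rfl⟩ := hi
      have h1 : hv T (((f i).1 : ℕ) % p) p < 2 ^ a := lt_of_lt_of_le (hv_lt _ _ hp.pos) hpa
      have e1 : (((f i).1 : ℕ) * 2 ^ a + hv T (((f i).1 : ℕ) % p) p) / 2 ^ a = ((f i).1 : ℕ) := by
        rw [Nat.add_comm, Nat.add_mul_div_right _ _ (by positivity), Nat.div_eq_of_lt h1, zero_add]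
      rw [e1]
      have h2 : ∃ j' : Fin Q, ((f j').1 : ℕ) = ((f i).1 : ℕ) := ⟨i, rfl⟩
      rw [dif_pos h2]
      have h3 : h2.choose = i := hf (Fin.ext h2.choose_spec)
      rw [h3]
      obtain ⟨i', hi', hne⟩ := (hΛ2 T hT).2 (em i) (hSlt _ (hem i)) (vf (em i) (hem i))
        (hvf1 _ _) (hvf2 _ _)
      exact ⟨i', hi', hne⟩
  have h6 : ((Finset.univ : Finset (Fin K → Bool)).filter fun g =>
      BadX n a k q t p (ext g)).card * 2 ^ E ≤ 2 ^ ((a + k) * Q) * 2 ^ (2 ^ n * t) * 2 ^ K := by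
    calc _ ≤ (∑ x ∈ I, ((Finset.univ : Finset (Fin K → Bool)).filter fun g =>
        Ev x g).card) * 2 ^ E :=
          Nat.mul_le_mul_right _ ((Finset.card_le_card hsub).trans Finset.card_biUnion_le)
      _ = ∑ x ∈ I, ((Finset.univ : Finset (Fin K → Bool)).filter fun g =>
        Ev x g).card * 2 ^ E := Finset.sum_mul _ _ _
      _ ≤ ∑ x ∈ I, 2 ^ K := Finset.sum_le_sum hone
      _ = I.card * 2 ^ K := by rw [Finset.sum_const, smul_eq_mul]
      _ ≤ _ := Nat.mul_le_mul_right _ hI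
  have h9 : 2 ^ ((a + k) * Q) * 2 ^ (2 ^ n * t) * 2 ≤ 2 ^ E := by
    rw [← pow_add, ← pow_succ]
    refine Nat.pow_le_pow_right (by norm_num) ?_
    have h11 : 2 ^ n * t ≤ Q := by nlinarith
    nlinarith
  have h10 : (((Finset.univ : Finset (Fin K → Bool)).filter fun g =>
      BadX n a k q t p (ext g)).card * 2) * 2 ^ E ≤ 2 ^ K * 2 ^ E := by
    calc _ = (((Finset.univ : Finset (Fin K → Bool)).filter fun g =>
      BadX n a k q t p (ext g)).card * 2 ^ E) * 2 := by ring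
      _ ≤ (2 ^ ((a + k) * Q) * 2 ^ (2 ^ n * t) * 2 ^ K) * 2 := Nat.mul_le_mul_right _ h6
      _ = 2 ^ K * (2 ^ ((a + k) * Q) * 2 ^ (2 ^ n * t) * 2) := by ring
      _ ≤ _ := Nat.mul_le_mul_left _ h9
  exact Nat.le_of_mul_le_mul_right h10 (by positivity)

end Pool.Agent.H66.NX
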