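import Pool.Agent.H66.NX.ExB
import Pool.Agent.H48.NE.HardE

/-!
# A function from whose excluded values one can extract good tables
-/

namespace Pool.Agent.H66.NX

open Pool.Agent.H48.NE

set_option maxHeartbeats 1000000

open Classical in
/-- A word (the table of a function with `k`-bit values) such that every table of wrong values at
`2^q` positions yields a good table. -/
theorem exists_hardX {A K m k as ps c l ρ q : ℕ} (D : List ℕ) (X : (ℕ → Bool) → Prop)
    (hcongr : ∀ g g' : ℕ → Bool, (∀ i < K, g i = g' i) → X g → X g')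
    (hX : ((Finset.univ : Finset (Fin K → Bool)).filter fun g => X (ext g)).card * 2 ≤ 2 ^ K)
    (hA1 : 1 ≤ A) (hK : K = 2 ^ A * 2 ^ A)
    (hps : ps.Prime) (hps1 : 2 ^ as ≤ 2 * ps) (hps2 : ps ≤ 2 ^ as) (hl : l = as + as)
    (has : m + k + 4 * A + 2 ≤ as)
    (hD : ∀ i < K, ∀ k < K, i ≠ k → agD c l (D.getD i 0) (D.getD k 0) ≤ ρ)
    (hρ : ρ ≤ A) (hk : k ≤ 2 ^ m) (hq : k + 3 * A + 2 ≤ q) :
    ∃ L : List Bool, L.length = 2 ^ (2 * m) ∧ ∀ W : List Bool, W.length = 2 ^ (m + k) →
      Avd m k (fun i => W.getD i false) (fun z i => L.getD (z * 2 ^ m + i) false) →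
      2 ^ q ≤ nDm m k (fun i => W.getD i false) →
      ∃ s < 2 ^ (l * 2 ^ c), ¬ X (gM as ps c l D W s) := by
  have hcount := card_allbad (m := m + k) D X hcongr hX hA1 hK hps hps1 hps2 hl has hD hρ
  obtain ⟨𝓑, h𝓑⟩ : ∃ 𝓑 : Finset (List Bool), 𝓑 = (allL (2 ^ (m + k))).filter fun B =>
    ∀ s < 2 ^ (l * 2 ^ c), X (gM as ps c l D B s) := ⟨_, rfl⟩
  rw [← h𝓑] at hcount
  have hcount2 : 𝓑.card < 2 ^ 2 ^ (q - k) := by
    refine lt_of_lt_of_le hcount ?_
    exact Nat.pow_le_pow_right (by norm_num) (Nat.pow_le_pow_right (by norm_num) (by omega))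
  obtain ⟨M, hM⟩ : ∃ M, M = 2 ^ m := ⟨_, rfl⟩
  have hone : ∀ B ∈ 𝓑, ((Finset.univ : Finset (Fin (M * M) → Bool)).filter fun g =>
      Avd m k (fun i => B.getD i false) (fun z i => (List.ofFn g).getD (z * 2 ^ m + i) false) ∧
        2 ^ q ≤ nDm m k (fun i => B.getD i false)).card * 2 ^ 2 ^ (q - k) ≤ 2 ^ (M * M) := by
    intro B _
    by_cases hs : 2 ^ q ≤ nDm m k (fun i => B.getD i false)
    · let J : Finset ℕ := (Finset.range (2 ^ m)).filter fun z => ∃ v < 2 ^ k,
        B.getD (z * 2 ^ k + v) false = true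
      have hJ : 2 ^ q ≤ J.card := hs
      let v : ℕ → ℕ := fun z => if h : ∃ v < 2 ^ k, B.getD (z * 2 ^ k + v) false = true then
        h.choose else 0
      have h1 := card_avoid' (M := M) (B := M) (k := k) (E := 2 ^ (q - k)) (by rw [hM]; exact hk)
        J (fun j hj => by
          rw [hM]
          exact Finset.mem_range.1 (Finset.mem_filter.1 hj).1) v ?_
      · refine le_trans (Nat.mul_le_mul_right _ (Finset.card_le_card ?_)) h1
        intro g hg
        rw [Finset.mem_filter] at hg ⊢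
        refine ⟨hg.1, fun j hj => ?_⟩
        have hj1 : j < 2 ^ m := Finset.mem_range.1 (Finset.mem_filter.1 hj).1
        have hj2 : ∃ v < 2 ^ k, B.getD (j * 2 ^ k + v) false = true := (Finset.mem_filter.1 hj).2
        have e1 : v j = hj2.choose := dif_pos hj2
        obtain ⟨i, hi, hne⟩ := hg.2.1 j hj1 (v j) (by rw [e1]; exact hj2.choose_spec.1)
          (by rw [e1]; exact hj2.choose_spec.2)
        refine ⟨i, hi, ?_⟩
        have h2 : j * M + i < M * M := by
          rw [hM]
          calc j * 2 ^ m + i < j * 2 ^ m + 2 ^ m := by omega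
            _ = (j + 1) * 2 ^ m := by ring
            _ ≤ _ := Nat.mul_le_mul_right _ hj1
        rw [ext_of_lt _ h2]
        rw [← hM] at hne
        have e2 := getD_ofFn g ⟨j * M + i, h2⟩
        simp only at e2 hne
        rwa [e2] at hne
      · calc 2 ^ k * 2 ^ (q - k) = 2 ^ q := by
              rw [← pow_add]
              congr 1
              omega
          _ ≤ _ := hJ
    · have : ((Finset.univ : Finset (Fin (M * M) → Bool)).filter fun g =>
          Avd m k (fun i => B.getD i false) (fun z i => (List.ofFn g).getD (z * 2 ^ m + i) false) ∧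
            2 ^ q ≤ nDm m k (fun i => B.getD i false)) = ∅ := by
        refine Finset.filter_false_of_mem fun g _ h => hs h.2
      rw [this]
      simp
  by_contra hno
  push Not at hno
  have hMM : M * M = 2 ^ (2 * m) := by
    rw [hM, ← pow_add]
    congr 1
    ring
  have hcover : (Finset.univ : Finset (Fin (M * M) → Bool)) ⊆ 𝓑.biUnion fun B =>
      (Finset.univ : Finset (Fin (M * M) → Bool)).filter fun g =>
        Avd m k (fun i => B.getD i false) (fun z i => (List.ofFn g).getD (z * 2 ^ m + i) false) ∧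
          2 ^ q ≤ nDm m k (fun i => B.getD i false) := by
    intro g _
    obtain ⟨W, hW1, hW2, hW3, hW4⟩ := hno (List.ofFn g) (by rw [List.length_ofFn, hMM])
    rw [Finset.mem_biUnion]
    refine ⟨W, ?_, ?_⟩
    · rw [h𝓑, Finset.mem_filter]
      exact ⟨mem_allL.2 hW1, hW4⟩
    · rw [Finset.mem_filter]
      exact ⟨Finset.mem_univ _, hW2, hW3⟩
  have h1 := (Finset.card_le_card hcover).trans Finset.card_biUnion_le
  have h2 : 2 ^ (M * M) * 2 ^ 2 ^ (q - k) ≤ 𝓑.card * 2 ^ (M * M) := by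
    calc 2 ^ (M * M) * 2 ^ 2 ^ (q - k) =
        (Finset.univ : Finset (Fin (M * M) → Bool)).card * 2 ^ 2 ^ (q - k) := by simp
      _ ≤ (∑ B ∈ 𝓑, ((Finset.univ : Finset (Fin (M * M) → Bool)).filter fun g =>
        Avd m k (fun i => B.getD i false) (fun z i => (List.ofFn g).getD (z * 2 ^ m + i) false) ∧
          2 ^ q ≤ nDm m k (fun i => B.getD i false)).card) * 2 ^ 2 ^ (q - k) :=
            Nat.mul_le_mul_right _ h1
      _ = ∑ B ∈ 𝓑, ((Finset.univ : Finset (Fin (M * M) → Bool)).filter fun g =>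
        Avd m k (fun i => B.getD i false) (fun z i => (List.ofFn g).getD (z * 2 ^ m + i) false) ∧
          2 ^ q ≤ nDm m k (fun i => B.getD i false)).card * 2 ^ 2 ^ (q - k) :=
            Finset.sum_mul _ _ _
      _ ≤ ∑ B ∈ 𝓑, 2 ^ (M * M) := Finset.sum_le_sum hone
      _ = _ := by rw [Finset.sum_const, smul_eq_mul]
  have h3 : 𝓑.card * 2 ^ (M * M) < 2 ^ 2 ^ (q - k) * 2 ^ (M * M) :=
    Nat.mul_lt_mul_of_pos_right hcount2 (by positivity)
  have h4 : 2 ^ (M * M) * 2 ^ 2 ^ (q - k) = 2 ^ 2 ^ (q - k) * 2 ^ (M * M) := Nat.mul_comm _ _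
  omega

end Pool.Agent.H66.NX
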