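import Pool.Agent.H66.NX.CompX

/-!
# Excluded values: the main construction
-/

namespace Pool.Agent.H66.NX

open Pool.Agent.H48.NE TMLib Polynomial Filter

set_option maxHeartbeats 1000000

/-- Every function on strings of length `C n` with values of `K n` bits, whose graph is in
exponential space, has, at large powers of two, a certified table of wrong values at `2^(Q n)`
positions. -/
def ExcT (C K Q : ℕ) : Prop := ∀ c : ℕ → ℕ → ℕ → Bool,
  ESn (fun m y => ∃ n, m = (C + K) * n ∧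
    ∀ i < K * n, c n (y / 2 ^ (K * n)) i = vb (y % 2 ^ (K * n)) i) →
  ∃ W : ℕ → List Bool, ESf W ∧ NEf W ∧ ∀ᶠ n in pows, (W n).length = 2 ^ ((C + K) * n) ∧
    Avd (C * n) (K * n) (fun j => (W n).getD j false) (c n) ∧
    2 ^ (Q * n) ≤ nDm (C * n) (K * n) (fun j => (W n).getD j false)

theorem nen_of_exc {C K C₂ K₂ : ℕ} (hC : 1 ≤ C) (hKC : K ≤ C) (hC₂ : 1 ≤ C₂) (hKC₂ : K₂ ≤ C₂)
    (H : ExcT C K (K + 4)) (H₂ : ExcT C₂ K₂ (K₂ + 6 * C + 2)) (Hm : MajH) {R : ℕ → ℕ → Prop}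
    (hR : ESn R) : NEn R := by
  classical
  obtain ⟨C₃, hC₃⟩ : ∃ C₃, C₃ = C₂ + K₂ + 8 * C + 2 := ⟨_, rfl⟩
  obtain ⟨c, hc⟩ : ∃ c, c = 2 * C₃ + 2 := ⟨_, rfl⟩
  -- the hard function
  set LH : ℕ → List Bool := leastL (2 * C₂) (HdX C K (K + 4) C₂ K₂ (K₂ + 6 * C + 2) C₃ c) with hLH
  have hLHe : ESf LH := esf_leastL (psp_HdXP C K (K + 4) C₂ K₂ (K₂ + 6 * C + 2) C₃ c)
    (HdXP_iff C K (K + 4) C₂ K₂ (K₂ + 6 * C + 2) C₃ c)
  have hLHs : ∀ᶠ n in pows, (LH n).length = 2 ^ (2 * C₂ * n) ∧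
      HdX C K (K + 4) C₂ K₂ (K₂ + 6 * C + 2) C₃ c n (LH n) := by
    have hbig : ∀ᶠ n in pows, 8 * (C * n + K * n + 1) ≤ 2 ^ n := by
      refine eventually_pows.2 ⟨8 * (C + K + 1), fun j hj => ?_⟩
      have h1 : 2 * j ≤ 2 ^ j := by
        rcases Nat.eq_zero_or_pos j with rfl | h0
        · simp
        · have h2 : j - 1 < 2 ^ (j - 1) := Nat.lt_two_pow_self
          have h3 : 2 ^ j = 2 * 2 ^ (j - 1) := by
            rw [← pow_succ']
            congr 1
            omega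
          omega
      have h4 : 2 ^ j * 2 ^ j ≤ 2 ^ 2 ^ j := by
        rw [← pow_add]
        exact Nat.pow_le_pow_right (by norm_num) (by omega)
      have h5 : 1 ≤ 2 ^ j := Nat.one_le_two_pow
      refine le_trans ?_ h4
      nlinarith
    filter_upwards [eventually_pows_ge 1, hbig] with n hn hn2
    obtain ⟨h1, h2, -⟩ := leastL_spec (exists_HdX hC hKC hKC₂ hC₃.ge hc.ge hn hn2)
    exact ⟨h1, h2⟩
  have hgr : ESn (fun m y => ∃ n, m = (C₂ + K₂) * n ∧ ∀ i < K₂ * n,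
      (LH n).getD ((y / 2 ^ (K₂ * n)) * 2 ^ (C₂ * n) + i) false = vb (y % 2 ^ (K₂ * n)) i) := by
    refine esn_scaled hLHe (C := C₂ + K₂) (by omega)
      (V := fun x : (ℕ × List Bool × ℕ) × ℕ => (List.range (K₂ * x.1.1)).all fun i =>
        decide (x.1.2.1.getD ((x.2 / powB x.1.2.2 (K₂ * x.1.1)) * powB x.1.2.2 (C₂ * x.1.1) + i)
          false = vbT x.1.2.2 (x.2 % powB x.1.2.2 (K₂ * x.1.1)) i)) ?_ ?_
    · refine PTime.all (g := fun (x : (ℕ × List Bool × ℕ) × ℕ) i =>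
        decide (x.1.2.1.getD ((x.2 / powB x.1.2.2 (K₂ * x.1.1)) * powB x.1.2.2 (C₂ * x.1.1) + i)
          false = vbT x.1.2.2 (x.2 % powB x.1.2.2 (K₂ * x.1.1)) i)) (by fun_prop) ?_
      exact PTime.eq (by fun_prop) (by fun_prop)
    · filter_upwards [eventually_two_pow_le ⊤ C₂, eventually_two_pow_le ⊤ K₂] with q h1 h2 z _
      rw [powB_eq h1, powB_eq h2, List.all_eq_true]
      simp only [List.mem_range, decide_eq_true_eq]
      refine forall_congr' fun i => imp_congr_right fun hi => ?_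
      rw [vbT_eq (le_trans (Nat.pow_le_pow_right (by norm_num) hi.le) h2)]
  obtain ⟨W, hBe, hBn, hWa⟩ := H₂ (fun n z i => (LH n).getD (z * 2 ^ (C₂ * n) + i) false) hgr
  -- the seed
  have hBd : ESf fun n => 2 ^ (2 * (C₃ * n) * 2 ^ c) := by
    refine esf_of_ptime (G := fun q : ℕ × ℕ => powB q.2 (2 * (C₃ * q.1) * 2 ^ c)) (by fun_prop) ?_
    have h2 := eventually_le_two_pow ⊤ (c := 2 * C₃ * 2 ^ c) (fun n => 2 * (C₃ * n) * 2 ^ c)
      (fun n => by nlinarith [Nat.zero_le (2 * C₃ * 2 ^ c)])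
    filter_upwards [h2] with q hq
    exact powB_eq hq
  set sd : ℕ → ℕ := leastN (fun n => 2 ^ (2 * (C₃ * n) * 2 ^ c))
    (fun n s => ¬ BadLX C K (K + 4) C₃ c n (W n) s) with hsd
  have hsde : ESf sd := by
    refine esf_least hBe (fun n => by positivity) hBd
      (Gd := fun x => ¬ BadXP C K (K + 4) ((x.1.1, x.1.2.2),
        gT (2 * C) C₃ c (((x.1.1, x.1.2.2), x.1.2.1), x.2))) (PSp.not ?_) ?_
    · refine (psp_badXP C K (K + 4)).comp (g := fun x : (ℕ × List Bool × ℕ) × ℕ =>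
        ((x.1.1, x.1.2.2), gT (2 * C) C₃ c (((x.1.1, x.1.2.2), x.1.2.1), x.2))) ?_
      exact PTime.pair (by fun_prop) ((ptime_gT (2 * C) C₃ c).comp
        (f := fun x : (ℕ × List Bool × ℕ) × ℕ =>
          (((x.1.1, x.1.2.2), x.1.2.1), x.2)) (by fun_prop))
    · filter_upwards [bad_bridgeX C K (K + 4) C₃ c] with q h1 s _
      exact not_congr (h1 _ _)
  have hsdn : NEf sd := by
    refine nef_of_esf Hm hsde (K := 2 * C₃ * 2 ^ c)
      (Nat.mul_pos (by omega) (by positivity)) (Eventually.of_forall fun n => ?_)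
    have h1 := leastN_lt (B := fun n => 2 ^ (2 * (C₃ * n) * 2 ^ c))
      (Gd := fun n s => ¬ BadLX C K (K + 4) C₃ c n (W n) s) (n := n)
      (by positivity)
    rwa [show 2 * C₃ * 2 ^ c * n = 2 * (C₃ * n) * 2 ^ c by ring]
  -- the table
  set F : ℕ → List Bool := fun n => gL (2 * C) C₃ c n (W n) (sd n) with hF
  have hG : PTime fun x : ℕ × (List Bool × ℕ) × ℕ =>
      gT (2 * C) C₃ c (((x.1, x.2.2), x.2.1.1), x.2.1.2) :=
    (ptime_gT (2 * C) C₃ c).comp (f := fun x : ℕ × (List Bool × ℕ) × ℕ =>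
      (((x.1, x.2.2), x.2.1.1), x.2.1.2)) (by fun_prop)
  have hGF : ∀ᶠ q in big ⊤, gT (2 * C) C₃ c (((q.1, q.2),
      W q.1), sd q.1) = F q.1 := by
    have h1 := eventually_le_two_pow ⊤ (c := c * (2 * C₃)) (fun n => c * (2 * (C₃ * n)))
      (fun n => by nlinarith [Nat.zero_le (c * (2 * C₃))])
    have h2 := eventually_le_two_pow ⊤ (c := 2 * C₃ * 2 ^ c) (fun n => 2 * (C₃ * n) * 2 ^ c)
      (fun n => by nlinarith [Nat.zero_le (2 * C₃ * 2 ^ c)])
    have h3 := eventually_le_two_pow ⊤ (c := 2 * C₃) (fun n => 2 * (C₃ * n))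
      (fun n => by nlinarith)
    have h4 := eventually_le_two_pow ⊤ (c := 4 * C) (fun n => 2 * (2 * C * n))
      (fun n => by nlinarith)
    filter_upwards [h1, h2, h3, h4] with q h1 h2 h3 h4
    rw [gT_eq h1 h2 h3 h4]
    rfl
  have hFe : ESf F := (hBe.prod hsde).map hG hGF
  have hFn : NEf F := (hBn.prod hsdn).map hG (hGF.filter_mono (big_le_top _))
  have hgood : ∀ᶠ n in pows, ¬ BadLX C K (K + 4) C₃ c n (W n) (sd n) := by
    filter_upwards [hLHs, hWa] with n h1 h2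
    obtain ⟨h3, h4⟩ := h1
    obtain ⟨h5, h6, h7⟩ := h2
    obtain ⟨s, hs, hbad⟩ := h4 _ h5 h6 h7
    exact (leastN_spec (B := fun n => 2 ^ (2 * (C₃ * n) * 2 ^ c))
      (Gd := fun n s => ¬ BadLX C K (K + 4) C₃ c n (W n) s)
      ⟨s, hs, hbad⟩).2
  -- the code function
  refine nen_of_nef_tab ?_
  have hT0 := esn_padR hR
  have hTe : ESf fun n => tab (padR R) n := by
    have := esf_tab hT0 1
    simpa using this
  let cw : ℕ → List Bool → ℕ → ℕ → Bool := fun n T z i =>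
    kcw (C * n) (prm (2 ^ (C * n - 1))) (fun i => (F n).getD i false) T z i
  have hgr' : ESn (fun m y => ∃ n, m = (C + K) * n ∧ ∀ i < K * n,
      cw n (tab (padR R) n) (y / 2 ^ (K * n)) i = vb (y % 2 ^ (K * n)) i) := by
    refine esn_scaled (hFe.prod hTe) (C := C + K) (by omega)
      (V := fun x : (ℕ × (List Bool × List Bool) × ℕ) × ℕ => (List.range (K * x.1.1)).all fun i =>
        decide (kcT C ((((x.1.1, x.1.2.2), x.1.2.1.1), x.1.2.1.2),
          (x.2 / powB x.1.2.2 (K * x.1.1), i)) =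
          vbT x.1.2.2 (x.2 % powB x.1.2.2 (K * x.1.1)) i)) ?_ ?_
    · refine PTime.all (g := fun (x : (ℕ × (List Bool × List Bool) × ℕ) × ℕ) i =>
        decide (kcT C ((((x.1.1, x.1.2.2), x.1.2.1.1), x.1.2.1.2),
          (x.2 / powB x.1.2.2 (K * x.1.1), i)) =
          vbT x.1.2.2 (x.2 % powB x.1.2.2 (K * x.1.1)) i)) (by fun_prop) ?_
      exact PTime.eq ((ptime_kcT C).comp
        (f := fun p : ((ℕ × (List Bool × List Bool) × ℕ) × ℕ) × ℕ =>
          ((((p.1.1.1, p.1.1.2.2), p.1.1.2.1.1), p.1.1.2.1.2),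
          (p.1.2 / powB p.1.1.2.2 (K * p.1.1.1), p.2))) (by fun_prop)) (by fun_prop)
    · have h0 := eventually_le_two_pow ⊤ (c := 2 * C) (fun n => 2 * (C * n))
        (fun n => by nlinarith)
      filter_upwards [eventually_two_pow_le ⊤ C, eventually_two_pow_le ⊤ K, h0]
        with q h1 h2 h3 z _
      rw [powB_eq h2, List.all_eq_true]
      simp only [List.mem_range, decide_eq_true_eq]
      refine forall_congr' fun i => imp_congr_right fun hi => ?_
      rw [vbT_eq (le_trans (Nat.pow_le_pow_right (by norm_num) hi.le) h2), kcT_eq h1 h3]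
  obtain ⟨W', hWe', hWn', hWa'⟩ := H (fun n z i => cw n (tab (padR R) n) z i) hgr'
  refine nef_sep hT0 Hm (W := fun n => (F n, W' n)) (hFe.prod hWe') (hFn.prod hWn')
    (Cl := fun n T => Avd (C * n) (K * n) (fun j => (W' n).getD j false) (cw n T))
    (V := fun x => avT C K ((((x.1.1, x.1.2.2), x.1.2.1.1), x.2), x.1.2.1.2)) ?_ ?_ (K + 1) ?_ ?_
  · exact (ptime_avT C K).comp (by fun_prop)
  · have h0 := eventually_le_two_pow ⊤ (c := 2 * C) (fun n => 2 * (C * n))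
      (fun n => by nlinarith)
    filter_upwards [eventually_two_pow_le ⊤ C, eventually_two_pow_le ⊤ K, h0]
      with q h1 h2 h3 T hT
    rw [avT_iff h1 h3 h2]
  · filter_upwards [hgood, hWa'] with n h1 h2 Λ hΛ
    by_contra hno
    push Not at hno
    obtain ⟨Λ', hΛ', hcard⟩ := Finset.exists_subset_card_eq hno.le
    exact h1 ⟨_, Λ', h2.2.2, hcard, fun T hT => hΛ T (hΛ' hT)⟩
  · filter_upwards [hWa'] with n hn
    exact hn.2.1

end Pool.Agent.H66.NX
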