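import Pool.Agent.H66.NX.MainX
import Pool.Agent.H66.NX.DefsX

/-!
# Excluded values: languages
-/

namespace Pool.Agent.H66.NX

open Pool.Agent.H48.NE TMLib Polynomial Filter

set_option maxHeartbeats 1000000

lemma val_replicate (n : ℕ) : val (List.replicate n true) = 2 ^ n - 1 := by
  induction n with
  | zero => rfl
  | succ n ih =>
    rw [List.replicate_succ, val, ih, pow_succ]
    have : 0 < 2 ^ n := by positivity
    simp only [Bool.toNat_true]
    omega

lemma bitsOf_ones (n : ℕ) : bitsOf n (2 ^ n - 1) = List.replicate n true := by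
  have h := bitsOf_val (List.replicate n true)
  rw [val_replicate, List.length_replicate] at h
  exact h

/-- Unary languages give certificates for tally information. -/
theorem majH_of_unary (H : UnaryCollapse) : MajH := by
  classical
  intro R hR hall
  have hU : ESn fun n k => k = 2 ^ n - 1 ∧ R n k := by
    obtain ⟨c, P, hP, h⟩ := hR
    refine ⟨c + 1, fun q => q.2.1 = powB q.2.2 q.1 - 1 ∧ P q, PSp.and (PSp.of_ptime (by fun_prop))
      hP, fun n k N hk hN => ?_⟩
    have h1 : 2 ^ n ≤ N := le_trans (two_pow_le_exp (by omega) _) hN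
    simp only
    rw [powB_eq h1, h n k N hk (le_trans (pow_mono_exp (by omega) _) hN)]
  have hU2 := H _ (mem_of_esn hU) ?_
  · obtain ⟨c, P, hP, h⟩ := nen_of_mem hU2
    have key : ∀ n, bitsOf n (2 ^ n - 1) ∈ lang (fun n k => k = 2 ^ n - 1 ∧ R n k) ↔ R n 0 := by
      intro n
      have hlt : 2 ^ n - 1 < 2 ^ n := by
        have : 0 < 2 ^ n := by positivity
        omega
      rw [bitsOf_lang hlt]
      exact ⟨fun h => (hall n _ _).1 h.2, fun h => ⟨rfl, (hall n _ _).2 h⟩⟩
    refine ⟨fun n _ => R n 0, ⟨c + 1, fun q => P (q.1, powB q.2.2 q.1 - 1, q.2.2), ?_, ?_⟩, 0,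
      fun n _ => ?_⟩
    · exact hP.comp (g := fun q : ℕ × ℕ × ℕ => (q.1, powB q.2.2 q.1 - 1, q.2.2)) (by fun_prop)
    · intro n k N _ hN
      have h1 : 2 ^ n ≤ N := le_trans (two_pow_le_exp (by omega) _) hN
      have hlt : 2 ^ n - 1 < 2 ^ n := by
        have : 0 < 2 ^ n := by positivity
        omega
      simp only
      rw [powB_eq h1, h n _ N hlt (le_trans (pow_mono_exp (by omega) _) hN)]
      exact key n
    · have h6 : agr n R (fun n _ => R n 0) = 2 ^ n := agr_full fun k => hall n 0 k
      rw [h6]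
      have h7 : 0 < 2 ^ n := by positivity
      omega
  · intro x hx b hb
    have h1 : val x = 2 ^ x.length - 1 := hx.1
    have h2 : x = List.replicate x.length true := by
      have h3 := bitsOf_val x
      rw [h1, bitsOf_ones] at h3
      exact h3.symm
    rw [h2] at hb
    exact List.eq_of_mem_replicate hb

/-- The first component of a pair. -/
def fstS (y : List Bool) : List Bool := (chunks 2 1 y).1

/-- The second component of a pair. -/
def sndS (y : List Bool) : List Bool := (chunks 2 1 y).2.tail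

@[simp] lemma fstS_pair (x v : List Bool) : fstS (pairStr x v) = x := by
  simp [fstS, chunks_pairStr]

@[simp] lemma sndS_pair (x v : List Bool) : sndS (pairStr x v) = v := by
  simp [sndS, chunks_pairStr]

lemma pairStr_inj {x x' v v' : List Bool} (h : pairStr x v = pairStr x' v') : x = x' ∧ v = v' := by
  constructor
  · rw [← fstS_pair x v, h, fstS_pair]
  · rw [← sndS_pair x v, h, sndS_pair]

@[fun_prop] lemma ptime_fstS {α : Type} [Enc α] {f : α → List Bool} (hf : PTime f) :
    PTime (fun x => fstS (f x)) := by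
  unfold fstS
  fun_prop

@[fun_prop] lemma ptime_sndS {α : Type} [Enc α] {f : α → List Bool} (hf : PTime f) :
    PTime (fun x => sndS (f x)) := by
  unfold sndS
  fun_prop

@[fun_prop] lemma ptime_pairStr {α : Type} [Enc α] {f g : α → List Bool} (hf : PTime f)
    (hg : PTime g) : PTime (fun x => pairStr (f x) (g x)) := by
  refine PTime.comp2 (g := fun a b => pairStr a b) ?_ hf hg
  unfold pairStr
  fun_prop

lemma vb_val (L : List Bool) (i : ℕ) : vb (val L) i = L.getD i false := bit_val L i

lemma getD_bitsOf {k v i : ℕ} (hv : v < 2 ^ k) : (bitsOf k v).getD i false = vb v i := by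
  rw [← vb_val, val_bitsOf hv]

/-- The string function with the values `c n z` at the strings of length `C n`. -/
def fS (p q e : ℕ) (c : ℕ → ℕ → ℕ → Bool) (x : List Bool) : List Bool :=
  if q * e ∣ x.length then
    (List.range (p * x.length / q)).map fun i => c (x.length / (q * e)) (val x) i
  else List.replicate (p * x.length / q) false

lemma length_fS (p q e : ℕ) (c : ℕ → ℕ → ℕ → Bool) (x : List Bool) :
    (fS p q e c x).length = p * x.length / q := by
  unfold fS
  split_ifs <;> simp

lemma fS_eq {p q e n : ℕ} (hq : 0 < q) (he : 0 < e) (c : ℕ → ℕ → ℕ → Bool) {x : List Bool}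
    (hx : x.length = q * e * n) :
    fS p q e c x = (List.range (p * e * n)).map fun i => c n (val x) i := by
  have h1 : p * x.length / q = p * e * n := by
    rw [hx, show p * (q * e * n) = p * e * n * q by ring, Nat.mul_div_cancel _ hq]
  have h2 : x.length / (q * e) = n := by
    rw [hx, Nat.mul_div_cancel_left _ (by positivity)]
  unfold fS
  rw [if_pos (by rw [hx]; exact Dvd.intro _ rfl), h1, h2]

theorem graph_fS {p q e : ℕ} (hp : 0 < p) (hq : 0 < q) (he : 0 < e) {c : ℕ → ℕ → ℕ → Bool}
    (hc : ESn (fun m y => ∃ n, m = (q * e + p * e) * n ∧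
      ∀ i < p * e * n, c n (y / 2 ^ (p * e * n)) i = vb (y % 2 ^ (p * e * n)) i)) :
    {y | ∃ x, y = pairStr x (fS p q e c x)} ∈ EXPSPACE := by
  classical
  obtain ⟨c₀, P, hP, h⟩ := hc
  refine mem_EXPSPACE_of_psp (P := fun s : List Bool × ℕ =>
    (s.1 = pairStr (fstS s.1) (sndS s.1) ∧ (sndS s.1).length = p * (fstS s.1).length / q) ∧
    ((∃ n ∈ List.range ((fstS s.1).length + 1), (fstS s.1).length = q * e * n ∧
      P ((q * e + p * e) * n, valB s.2 (fstS s.1) * powB s.2 (p * e * n) + valB s.2 (sndS s.1),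
        s.2)) ∨
    ((∀ n ∈ List.range ((fstS s.1).length + 1), ¬ ((fstS s.1).length = q * e * n)) ∧
      ((sndS s.1).all fun b => !b) = true))) ?_ (c₀ + 1) ?_
  · refine PSp.and (PSp.of_ptime (by fun_prop)) (PSp.or ?_ (PSp.and ?_ (PSp.of_ptime ?_)))
    · refine PSp.exists_mem (R := fun (s : List Bool × ℕ) n => (fstS s.1).length = q * e * n ∧
        P ((q * e + p * e) * n, valB s.2 (fstS s.1) * powB s.2 (p * e * n) + valB s.2 (sndS s.1),
        s.2)) ?_ (by fun_prop)
      refine PSp.and (PSp.of_ptime (by fun_prop)) ?_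
      exact hP.comp (g := fun s : (List Bool × ℕ) × ℕ => ((q * e + p * e) * s.2,
        valB s.1.2 (fstS s.1.1) * powB s.1.2 (p * e * s.2) + valB s.1.2 (sndS s.1.1), s.1.2))
        (by fun_prop)
    · refine PSp.forall_mem (R := fun (s : List Bool × ℕ) n =>
        ¬ ((fstS s.1).length = q * e * n)) (PSp.not (PSp.of_ptime (by fun_prop))) (by fun_prop)
    · refine PTime.decide_true' (PTime.all (g := fun (_ : List Bool × ℕ) b => !b) (by fun_prop)
        (by fun_prop))
  · intro y
    obtain ⟨N, hN⟩ : ∃ N, N = 2 ^ ((c₀ + 1) * (y.length + 1)) := ⟨_, rfl⟩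
    rw [← hN]
    simp only [Set.mem_ofPred_eq]
    have main : ∀ x v : List Bool, y = pairStr x v → v.length = p * x.length / q →
        (v = fS p q e c x ↔ ((∃ n ∈ List.range (x.length + 1), x.length = q * e * n ∧
          P ((q * e + p * e) * n, valB N x * powB N (p * e * n) + valB N v, N)) ∨
          ((∀ n ∈ List.range (x.length + 1), ¬ (x.length = q * e * n)) ∧
            (v.all fun b => !b) = true))) := by
      intro x v hy hv
      have hlen := length_pairStr x v
      rw [← hy] at hlen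
      have hqe : 0 < q * e := by positivity
      by_cases hd : q * e ∣ x.length
      · obtain ⟨n, hn⟩ := hd
        have hn1 : n ≤ x.length := by
          rw [hn]
          exact Nat.le_mul_of_pos_left _ hqe
        have hv2 : v.length = p * e * n := by
          rw [hv, hn, show p * (q * e * n) = p * e * n * q by ring, Nat.mul_div_cancel _ hq]
        have hvx : val x < 2 ^ (q * e * n) := by
          have := val_lt x
          rwa [hn] at this
        have hvv : val v < 2 ^ (p * e * n) := by
          have := val_lt v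
          rwa [hv2] at this
        have hle : (q * e + p * e) * n ≤ y.length := by
          have e1 : (q * e + p * e) * n = q * e * n + p * e * n := by ring
          omega
        have hNx : 2 ^ (q * e * n) ≤ N := by
          rw [hN]
          refine Nat.pow_le_pow_right (by norm_num) ?_
          nlinarith
        have hNv : 2 ^ (p * e * n) ≤ N := by
          rw [hN]
          refine Nat.pow_le_pow_right (by norm_num) ?_
          nlinarith
        have hN0 : 2 ^ (c₀ * ((q * e + p * e) * n + 1)) ≤ N := by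
          rw [hN]
          refine Nat.pow_le_pow_right (by norm_num) ?_
          exact Nat.mul_le_mul (by omega) (by omega)
        have e1 : valB N x = val x := valB_eq (by omega)
        have e2 : valB N v = val v := valB_eq (by omega)
        rw [e1, e2]
        have hz : val x * 2 ^ (p * e * n) + val v < 2 ^ ((q * e + p * e) * n) := by
          have := idx_lt hvx hvv
          rwa [← add_mul] at this
        have e3 : (val x * 2 ^ (p * e * n) + val v) / 2 ^ (p * e * n) = val x := by
          rw [Nat.add_comm, Nat.add_mul_div_right _ _ (by positivity), Nat.div_eq_of_lt hvv,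
            zero_add]
        have e4 : (val x * 2 ^ (p * e * n) + val v) % 2 ^ (p * e * n) = val v := by
          rw [Nat.add_comm, Nat.add_mul_mod_self_right, Nat.mod_eq_of_lt hvv]
        have hkey : (P ((q * e + p * e) * n, val x * powB N (p * e * n) + val v, N)) ↔
            v = fS p q e c x := by
          rw [powB_eq hNv, h _ _ _ hz hN0]
          have e5 : (∃ n', (q * e + p * e) * n = (q * e + p * e) * n' ∧ ∀ i < p * e * n',
              c n' ((val x * 2 ^ (p * e * n) + val v) / 2 ^ (p * e * n')) i =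
              vb ((val x * 2 ^ (p * e * n) + val v) % 2 ^ (p * e * n')) i) ↔
              ∀ i < p * e * n, c n (val x) i = v.getD i false := by
            constructor
            · rintro ⟨n', h1, h2⟩
              have h3 : n = n' := Nat.eq_of_mul_eq_mul_left (by positivity) h1
              subst h3
              rw [e3, e4] at h2
              intro i hi
              rw [h2 i hi, vb_val]
            · intro h2
              refine ⟨n, rfl, ?_⟩
              rw [e3, e4]
              intro i hi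
              rw [h2 i hi, vb_val]
          refine Iff.trans e5 ?_
          rw [fS_eq hq he c hn]
          constructor
          · intro h2
            refine List.ext_getElem (by simp [hv2]) fun i hi hi' => ?_
            rw [List.getElem_map, List.getElem_range]
            rw [h2 i (by omega)]
            simp [List.getD, hi]
          · rintro h2 i hi
            rw [h2]
            simp [List.getD, hi]
        constructor
        · intro h1
          exact Or.inl ⟨n, List.mem_range.2 (by omega), hn, hkey.2 h1⟩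
        · rintro (⟨n', hn', h2, h3⟩ | ⟨h2, -⟩)
          · have h4 : n = n' := Nat.eq_of_mul_eq_mul_left hqe (by rw [← hn, ← h2])
            subst h4
            exact hkey.1 h3
          · exact absurd hn (h2 n (List.mem_range.2 (by omega)))
      · have hno : ∀ n, ¬ (x.length = q * e * n) := fun n hn => hd ⟨n, hn⟩
        have e1 : fS p q e c x = List.replicate (p * x.length / q) false := if_neg hd
        rw [e1]
        have e2 : (v.all fun b => !b) = true ↔ v = List.replicate (p * x.length / q) false := by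
          rw [List.eq_replicate_iff, List.all_eq_true]
          simp [hv]
        rw [e2]
        constructor
        · intro h1
          exact Or.inr ⟨fun n _ => hno n, h1⟩
        · rintro (⟨n, -, h2, -⟩ | ⟨-, h2⟩)
          · exact absurd h2 (hno n)
          · exact h2
    constructor
    · rintro ⟨x, hx⟩
      have h1 : fstS y = x := by rw [hx, fstS_pair]
      have h2 : sndS y = fS p q e c x := by rw [hx, sndS_pair]
      rw [h1, h2]
      exact ⟨⟨hx, length_fS _ _ _ _ _⟩, (main x _ hx (length_fS _ _ _ _ _)).1 rfl⟩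
    · rintro ⟨⟨h1, h2⟩, h3⟩
      refine ⟨fstS y, ?_⟩
      rw [← (main _ _ h1 h2).2 h3]
      exact h1

/-- Decoding of advice. -/
def dcA (L α : ℕ) : List Bool := bitsOf (α % (L + 1)) (α / (L + 1))

lemma length_dcA (L α : ℕ) : (dcA L α).length ≤ L := by
  unfold dcA
  rw [length_bitsOf]
  have := Nat.mod_lt α (show 0 < L + 1 by omega)
  omega

lemma exists_dcA {L : ℕ} {s : List Bool} (hs : s.length ≤ L) :
    ∃ α < 2 ^ (2 * L), dcA L α = s := by
  refine ⟨s.length + (L + 1) * val s, ?_, ?_⟩
  · have h1 := val_lt s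
    have h2 : 2 ^ s.length ≤ 2 ^ L := Nat.pow_le_pow_right (by norm_num) hs
    have h3 : L < 2 ^ L := Nat.lt_two_pow_self
    have h4 : 2 ^ (2 * L) = 2 ^ L * 2 ^ L := by rw [← pow_add]; congr 1; ring
    rw [h4]
    obtain ⟨A, hA⟩ : ∃ A, 2 ^ L = A + 1 := ⟨2 ^ L - 1, by omega⟩
    rw [hA] at h2 h3 ⊢
    have h5 : val s ≤ A := by omega
    nlinarith [Nat.mul_le_mul_left (L + 1) h5]
  · unfold dcA
    have h1 : (s.length + (L + 1) * val s) % (L + 1) = s.length := by
      rw [Nat.add_mul_mod_self_left, Nat.mod_eq_of_lt (by omega)]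
    have h2 : (s.length + (L + 1) * val s) / (L + 1) = val s := by
      rw [Nat.add_mul_div_left _ _ (by omega), Nat.div_eq_of_lt (by omega), zero_add]
    rw [h1, h2, bitsOf_val]

@[fun_prop] lemma ptime_dcA {α : Type} [Enc α] {f g : α → ℕ} (hf : PTime f) (hg : PTime g) :
    PTime (fun x => dcA (f x) (g x)) := by
  unfold dcA
  fun_prop

/-- The string tested for the advice `α` and the pair with number `j`. -/
def tsS (C K L n B α j : ℕ) : List Bool :=
  pairStr (dcA L α) (pairStr (bitsOf (C * n) (j / B)) (bitsOf (K * n) (j % B)))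

lemma length_tsS (C K L n B α j : ℕ) :
    (tsS C K L n B α j).length ≤ 2 * L + 2 * (C * n) + K * n + 2 := by
  unfold tsS
  rw [length_pairStr, length_pairStr, length_bitsOf, length_bitsOf]
  have := length_dcA L α
  omega

theorem excT_of_wrong {p q : ℕ} (hp : 0 < p) (hq : 0 < q) {κ : ℝ} (H : WrongValues p q κ)
    (Hm : MajH) {e Q : ℕ} (he : 0 < e) (hQ : (Q : ℝ) ≤ κ * (q * e : ℕ)) :
    ExcT (q * e) (p * e) Q := by
  classical
  intro c hc
  obtain ⟨V, hV, a, ca, ha, hV2, n₀, hn₀⟩ :=
    H (fS p q e c) (length_fS p q e c) (graph_fS hp hq he hc)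
  obtain ⟨C, hC⟩ : ∃ C, C = q * e := ⟨_, rfl⟩
  obtain ⟨K, hK⟩ : ∃ K, K = p * e := ⟨_, rfl⟩
  have hC0 : 0 < C := by rw [hC]; positivity
  have hK0 : 0 < K := by rw [hK]; positivity
  rw [← hC, ← hK] at hc ⊢
  rw [← hC] at hQ
  obtain ⟨c₁, PV, hPV, hPV2⟩ := exists_npp_of_mem_NEXPTIME hV
  obtain ⟨c₀, P₀, hP₀, hP₀2⟩ := id hc
  -- the test
  let VV : ℕ → ℕ → ℕ → Prop := fun n α j => tsS C K (ca * (C * n + 1)) n (2 ^ (K * n)) α j ∈ V
  let VS : (ℕ × ℕ) × ℕ × ℕ → Prop := fun x =>
    PV (tsS C K (ca * (C * x.1.1 + 1)) x.1.1 (powB x.1.2 (K * x.1.1)) x.2.1 x.2.2, x.1.2)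
  have hVS : NPp VS := by
    refine hPV.comp (g := fun x : (ℕ × ℕ) × ℕ × ℕ =>
      (tsS C K (ca * (C * x.1.1 + 1)) x.1.1 (powB x.1.2 (K * x.1.1)) x.2.1 x.2.2, x.1.2)) ?_
    unfold tsS
    fun_prop
  have hVSV : ∀ᶠ s in big ⊤, ∀ α j, (VS ((s.1, s.2), (α, j)) ↔ VV s.1 α j) := by
    have h1 := eventually_two_pow_le ⊤ K
    have h2 := eventually_le_two_pow ⊤ (c := c₁ * (2 * (ca * (C + 1)) + 2 * C + K + 3))
      (fun n => c₁ * (2 * (ca * (C * n + 1)) + 2 * (C * n) + K * n + 2 + 1)) (fun n => by
        have h3 : 2 * (ca * (C * n + 1)) + 2 * (C * n) + K * n + 2 + 1 ≤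
            (2 * (ca * (C + 1)) + 2 * C + K + 3) * (n + 1) := by
          have h4 : ca * (C * n + 1) ≤ ca * (C + 1) * (n + 1) := by
            rw [mul_assoc]
            exact Nat.mul_le_mul_left _ (by nlinarith)
          nlinarith
        calc _ ≤ c₁ * ((2 * (ca * (C + 1)) + 2 * C + K + 3) * (n + 1)) := Nat.mul_le_mul_left _ h3
          _ = _ := by ring)
    filter_upwards [h1, h2] with s h1 h2 α j
    simp only [VS, VV]
    rw [powB_eq h1]
    refine hPV2 _ _ (le_trans (Nat.pow_le_pow_right (by norm_num) (Nat.mul_le_mul_left _ ?_)) h2)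
    have := length_tsS C K (ca * (C * s.1 + 1)) s.1 (2 ^ (K * s.1)) α j
    omega
  -- good advice
  let Gd : ℕ → ℕ → Prop := fun n α =>
    (∀ j < 2 ^ ((C + K) * n), VV n α j →
      ∃ i < K * n, c n (j / 2 ^ (K * n)) i ≠ vb (j % 2 ^ (K * n)) i) ∧
    2 ^ (Q * n) ≤ nDm (C * n) (K * n) (fun j => decide (VV n α j))
  let Bd : ℕ → ℕ := fun n => 2 ^ (2 * (ca * (C * n + 1)))
  have hBd : ESf Bd := by
    refine esf_of_ptime (G := fun s : ℕ × ℕ => powB s.2 (2 * (ca * (C * s.1 + 1))))
      (by fun_prop) ?_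
    have h2 := eventually_le_two_pow ⊤ (c := 2 * (ca * (C + 1)))
      (fun n => 2 * (ca * (C * n + 1))) (fun n => by
        have h4 : ca * (C * n + 1) ≤ ca * (C + 1) * (n + 1) := by
          rw [mul_assoc]
          exact Nat.mul_le_mul_left _ (by nlinarith)
        nlinarith)
    filter_upwards [h2] with s hs
    exact powB_eq hs
  have hg0 : ESf (fun _ : ℕ => (0 : ℕ)) :=
    esf_of_ptime (G := fun _ : ℕ × ℕ => (0 : ℕ)) (by fun_prop) (Eventually.of_forall fun _ => rfl)
  let al : ℕ → ℕ := leastN Bd Gd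
  have hal : ESf al := by
    refine esf_least hg0 (fun n => by positivity) hBd
      (Gd := fun x => ∃ T : List Bool, sz T ≤ 1 + 4 * x.1.2.2 ∧
        ((T.length = powB x.1.2.2 ((C + K) * x.1.1) ∧
          powB x.1.2.2 (Q * x.1.1) ≤ ndT C K ((x.1.1, x.1.2.2), T)) ∧
        ∀ j ∈ List.range (powB x.1.2.2 ((C + K) * x.1.1)),
          ((T.getD j false = true ↔ VS ((x.1.1, x.1.2.2), (x.2, j))) ∧
          (T.getD j false = true → ¬ P₀ ((C + K) * x.1.1, j, x.1.2.2))))) ?_ ?_
    · refine PSp.exists_le (R := fun (x : (ℕ × ℕ × ℕ) × ℕ) (T : List Bool) =>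
        ((T.length = powB x.1.2.2 ((C + K) * x.1.1) ∧
          powB x.1.2.2 (Q * x.1.1) ≤ ndT C K ((x.1.1, x.1.2.2), T)) ∧
        ∀ j ∈ List.range (powB x.1.2.2 ((C + K) * x.1.1)),
          ((T.getD j false = true ↔ VS ((x.1.1, x.1.2.2), (x.2, j))) ∧
          (T.getD j false = true → ¬ P₀ ((C + K) * x.1.1, j, x.1.2.2))))) ?_ (by fun_prop)
      refine PSp.and (PSp.and (PSp.of_ptime (by fun_prop)) (PSp.of_ptime ?_)) ?_
      · exact PTime.le (by fun_prop) ((ptime_ndT C K).comp (by fun_prop))
      · refine PSp.forall_mem (R := fun (y : ((ℕ × ℕ × ℕ) × ℕ) × List Bool) j =>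
          ((y.2.getD j false = true ↔ VS ((y.1.1.1, y.1.1.2.2), (y.1.2, j))) ∧
          (y.2.getD j false = true → ¬ P₀ ((C + K) * y.1.1.1, j, y.1.1.2.2)))) ?_ (by fun_prop)
        have h1 : PSp fun y : (((ℕ × ℕ × ℕ) × ℕ) × List Bool) × ℕ => y.1.2.getD y.2 false = true :=
          PSp.of_ptime (PTime.decide_true' (by fun_prop))
        refine PSp.and (PSp.iff h1 ?_) (PSp.imp h1 (PSp.not ?_))
        · exact hVS.psp.comp (g := fun y : (((ℕ × ℕ × ℕ) × ℕ) × List Bool) × ℕ =>
            ((y.1.1.1.1, y.1.1.1.2.2), (y.1.1.2, y.2))) (by fun_prop)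
        · exact hP₀.comp (g := fun y : (((ℕ × ℕ × ℕ) × ℕ) × List Bool) × ℕ =>
            ((C + K) * y.1.1.1.1, y.2, y.1.1.1.2.2)) (by fun_prop)
    · have h0 := eventually_le_two_pow ⊤ (c := c₀ * (C + K + 1)) (fun n => c₀ * ((C + K) * n + 1))
        (fun n => by
          rw [mul_assoc]
          exact Nat.mul_le_mul_left _ (by nlinarith))
      filter_upwards [hVSV, eventually_two_pow_le ⊤ (C + K), eventually_two_pow_le ⊤ Q,
        eventually_two_pow_le ⊤ C, eventually_two_pow_le ⊤ K, h0] with s h1 h2 h3 h4 h5 h6 α _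
      obtain ⟨n, N⟩ := s
      simp only at h1 h2 h3 h4 h5 h6 ⊢
      rw [powB_eq h2, powB_eq h3]
      have hgr : ∀ j < 2 ^ ((C + K) * n), (¬ P₀ ((C + K) * n, j, N) ↔
          ∃ i < K * n, c n (j / 2 ^ (K * n)) i ≠ vb (j % 2 ^ (K * n)) i) := by
        intro j hj
        rw [hP₀2 _ _ _ hj h6]
        constructor
        · intro h7
          by_contra hno
          push Not at hno
          exact h7 ⟨n, rfl, hno⟩
        · rintro ⟨i, hi, hne⟩ ⟨n', hn', h8⟩
          have h9 : n = n' := Nat.eq_of_mul_eq_mul_left (by omega) hn'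
          subst h9
          exact hne (h8 i hi)
      have eCK : (C + K) * n = C * n + K * n := by ring
      constructor
      · rintro ⟨T, -, ⟨hT1, hT2⟩, hT3⟩
        rw [ndT_eq h4 h5] at hT2
        refine ⟨fun j hj hvv => ?_, ?_⟩
        · obtain ⟨h7, h8⟩ := hT3 j (List.mem_range.2 hj)
          exact (hgr j hj).1 (h8 (h7.2 ((h1 _ _).2 hvv)))
        · refine le_of_le_of_eq hT2 (nDm_congr fun j hj => ?_)
          rw [← eCK] at hj
          rw [Bool.eq_iff_iff, decide_eq_true_eq, (hT3 j (List.mem_range.2 hj)).1, h1]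
      · rintro ⟨h7, h8⟩
        have e1 : ∀ j < 2 ^ ((C + K) * n), ((List.range (2 ^ ((C + K) * n))).map
            fun j => decide (VV n α j)).getD j false = decide (VV n α j) := by
          intro j hj
          simp [List.getD, hj]
        refine ⟨(List.range (2 ^ ((C + K) * n))).map fun j => decide (VV n α j), ?_, ⟨?_, ?_⟩,
          fun j hj => ?_⟩
        · have := sz_bits_le ((List.range (2 ^ ((C + K) * n))).map fun j => decide (VV n α j))
          rw [List.length_map, List.length_range] at this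
          omega
        · rw [List.length_map, List.length_range]
        · rw [ndT_eq h4 h5]
          refine le_of_le_of_eq h8 (nDm_congr fun j hj => ?_)
          rw [← eCK] at hj
          rw [e1 j hj]
        · rw [List.mem_range] at hj
          rw [e1 j hj, decide_eq_true_eq, h1]
          exact ⟨Iff.rfl, fun h9 => (hgr j hj).2 (h7 j hj h9)⟩
  have haln : NEf al := by
    refine nef_of_esf Hm hal (K := 2 * (ca * (C + 1)) + 1) (by omega) ?_
    filter_upwards [eventually_pows_ge 1] with n hn
    have h1 : al n < Bd n := leastN_lt (by positivity)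
    refine lt_of_lt_of_le h1 (Nat.pow_le_pow_right (by norm_num) ?_)
    have h4 : ca * (C * n + 1) ≤ ca * (C + 1) * n := by
      rw [mul_assoc]
      exact Nat.mul_le_mul_left _ (by nlinarith)
    nlinarith
  -- the certified language
  obtain ⟨Pa, hPa, hPa2⟩ := id haln
  obtain ⟨c₂, hc₂⟩ := eventually_big.1 (hPa2.and (hVSV.filter_mono (big_le_top _)))
  obtain ⟨n₂, hn₂⟩ := eventually_pows.1 hc₂
  let S : ℕ → ℕ → Prop := fun m j => ∃ n, m = (C + K) * n ∧ n₂ ≤ n ∧ (∃ i, n = 2 ^ i) ∧
    VV n (al n) j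
  have hS : NEn S := by
    refine ⟨c₂ + 1, fun s => ∃ n ∈ List.range (s.1 + 1), (s.1 = (C + K) * n ∧ n₂ ≤ n) ∧
      (∃ i ∈ List.range (s.1 + 1), n = powB (s.1 + 1) i) ∧ ∃ α : ℕ, sz α ≤ s.2.2 ∧
      (Pa (n, α, s.2.2) ∧ VS ((n, s.2.2), (α, s.2.1))), ?_, ?_⟩
    · refine NPp.exists_mem (R := fun (s : ℕ × ℕ × ℕ) n => (s.1 = (C + K) * n ∧ n₂ ≤ n) ∧
        (∃ i ∈ List.range (s.1 + 1), n = powB (s.1 + 1) i) ∧ ∃ α : ℕ, sz α ≤ s.2.2 ∧
        (Pa (n, α, s.2.2) ∧ VS ((n, s.2.2), (α, s.2.1)))) ?_ (by fun_prop)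
      refine NPp.and (NPp.of_ptime (by fun_prop)) (NPp.and ?_ ?_)
      · exact NPp.exists_mem (R := fun (y : (ℕ × ℕ × ℕ) × ℕ) i => y.2 = powB (y.1.1 + 1) i)
          (NPp.of_ptime (by fun_prop)) (by fun_prop)
      · refine NPp.exists_le (R := fun (y : (ℕ × ℕ × ℕ) × ℕ) (α : ℕ) => Pa (y.2, α, y.1.2.2) ∧
          VS ((y.2, y.1.2.2), (α, y.1.2.1))) (NPp.and ?_ ?_) (by fun_prop)
        · exact hPa.comp (g := fun y : ((ℕ × ℕ × ℕ) × ℕ) × ℕ => (y.1.2, y.2, y.1.1.2.2))
            (by fun_prop)
        · exact hVS.comp (g := fun y : ((ℕ × ℕ × ℕ) × ℕ) × ℕ =>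
            ((y.1.2, y.1.1.2.2), (y.2, y.1.1.2.1))) (by fun_prop)
    · intro m j N _ hN
      have key : ∀ n ≤ m, n₂ ≤ n → (∃ i, n = 2 ^ i) → ((sz (al n) ≤ N ∧
          ∀ b, (Pa (n, b, N) ↔ b = al n)) ∧ ∀ α j, (VS ((n, N), (α, j)) ↔ VV n α j)) := by
        rintro n hn h1 ⟨i, rfl⟩
        refine hn₂ i h1 N (le_trans (Nat.pow_le_pow_right (by norm_num) ?_) hN)
        exact Nat.mul_le_mul (by omega) (by omega)
      constructor
      · rintro ⟨n, hn, ⟨h1, h2⟩, ⟨i, hi, h3⟩, α, -, h4, h5⟩
        rw [List.mem_range] at hn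
        have h6 : n = 2 ^ i := by
          unfold powB at h3
          omega
        obtain ⟨⟨-, h7⟩, h8⟩ := key n (by omega) h2 ⟨i, h6⟩
        rw [(h7 α).1 h4] at h5
        exact ⟨n, h1, h2, ⟨i, h6⟩, (h8 _ _).1 h5⟩
      · rintro ⟨n, h1, h2, ⟨i, hi⟩, h3⟩
        have h4 : n ≤ (C + K) * n := Nat.le_mul_of_pos_left _ (by omega)
        have h5 : i < 2 ^ i := Nat.lt_two_pow_self
        obtain ⟨⟨h6, h7⟩, h8⟩ := key n (by omega) h2 ⟨i, hi⟩
        refine ⟨n, List.mem_range.2 (by omega), ⟨h1, h2⟩, ⟨i, List.mem_range.2 (by omega), ?_⟩,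
          al n, h6, (h7 _).2 rfl, (h8 _ _).2 h3⟩
        rw [powB_eq (by omega), hi]
  have hSe := esn_of_nen hS
  refine ⟨fun n => tab S ((C + K) * n), esf_tab hSe (C + K), nef_tab Hm hS hSe (by omega), ?_⟩
  have hpw : ∀ᶠ n in pows, ∃ j, n = 2 ^ j := eventually_pows.2 ⟨0, fun j _ => ⟨j, rfl⟩⟩
  filter_upwards [hpw, eventually_pows_ge n₂, eventually_pows_ge n₀, eventually_pows_ge 1]
    with n h1 h2 h3 h4
  have eCK : (C + K) * n = C * n + K * n := by ring
  have hSV : ∀ j, (S ((C + K) * n) j ↔ VV n (al n) j) := by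
    intro j
    constructor
    · rintro ⟨n', hn', -, -, h5⟩
      have h6 : n = n' := Nat.eq_of_mul_eq_mul_left (by omega) hn'
      subst h6
      exact h5
    · intro h5
      exact ⟨n, rfl, h2, h1, h5⟩
  have hgood : Gd n (al n) := by
    have hlen : (a (C * n)).length ≤ ca * (C * n + 1) := ha _
    obtain ⟨α, hα1, hα2⟩ := exists_dcA hlen
    refine (leastN_spec (B := Bd) (Gd := Gd) ⟨α, hα1, ?_, ?_⟩).2
    · intro j hj hvv
      simp only [VV, tsS] at hvv
      rw [hα2] at hvv
      have hz : j / 2 ^ (K * n) < 2 ^ (C * n) := by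
        rw [Nat.div_lt_iff_lt_mul (by positivity), ← pow_add, ← eCK]
        exact hj
      have hv : j % 2 ^ (K * n) < 2 ^ (K * n) := Nat.mod_lt _ (by positivity)
      have h5 := hV2 (bitsOf (C * n) (j / 2 ^ (K * n))) (bitsOf (K * n) (j % 2 ^ (K * n)))
        (by rw [length_bitsOf]; exact hvv)
      by_contra hno
      push Not at hno
      refine h5.2 ?_
      rw [fS_eq hq he c (x := bitsOf (C * n) (j / 2 ^ (K * n))) (by rw [length_bitsOf, hC]),
        val_bitsOf hz, ← hK]
      refine List.ext_getElem (by simp) fun i hi hi' => ?_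
      rw [length_bitsOf] at hi
      rw [List.getElem_map, List.getElem_range, hno i hi, ← getD_bitsOf hv]
      simp [List.getD, hi]
    · have hn1 : n ≤ C * n := Nat.le_mul_of_pos_left _ hC0
      have h5 := hn₀ (C * n) (by omega)
      have h6 : (2 : ℝ) ^ (Q * n) ≤ (2 : ℝ) ^ (κ * (C * n : ℕ)) := by
        rw [← Real.rpow_natCast 2 (Q * n)]
        refine Real.rpow_le_rpow_of_exponent_le (by norm_num) ?_
        have h7 : (0 : ℝ) ≤ n := Nat.cast_nonneg n
        have h8 := mul_le_mul_of_nonneg_right hQ h7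
        push_cast at h8 ⊢
        linarith
      have h7 : {x : List Bool | x.length = C * n ∧ ∃ v,
          pairStr (a (C * n)) (pairStr x v) ∈ V}.ncard ≤
          nDm (C * n) (K * n) (fun j => decide (VV n α j)) := by
        have e1 : {x : List Bool | x.length = C * n ∧ ∃ v,
            pairStr (a (C * n)) (pairStr x v) ∈ V} =
            {x | x ∈ {x | ∃ v, pairStr (a (C * n)) (pairStr x v) ∈ V} ∧ x.length = C * n} := by
          ext x
          simp [and_comm]
        rw [e1, ncard_eq]
        unfold nDm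
        refine Finset.card_le_card fun z hz => ?_
        rw [Finset.mem_filter, Finset.mem_range] at hz ⊢
        obtain ⟨hz, v, hv⟩ := hz
        have h8 : v.length = K * n := by
          obtain ⟨h9, -⟩ := hV2 (bitsOf (C * n) z) v (by rw [length_bitsOf]; exact hv)
          rw [length_fS, length_bitsOf, hC] at h9
          rw [h9, show p * (q * e * n) = p * e * n * q by ring, Nat.mul_div_cancel _ hq, hK]
        have h9 := val_lt v
        rw [h8] at h9
        refine ⟨hz, val v, h9, ?_⟩
        rw [decide_eq_true_eq]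
        simp only [VV, tsS]
        have e3 : (z * 2 ^ (K * n) + val v) / 2 ^ (K * n) = z := by
          rw [Nat.add_comm, Nat.add_mul_div_right _ _ (by positivity), Nat.div_eq_of_lt h9,
            zero_add]
        have e4 : (z * 2 ^ (K * n) + val v) % 2 ^ (K * n) = val v := by
          rw [Nat.add_comm, Nat.add_mul_mod_self_right, Nat.mod_eq_of_lt h9]
        have h10 := bitsOf_val v
        rw [h8] at h10
        rw [e3, e4, hα2, h10]
        exact hv
      have h8 : (2 : ℝ) ^ (Q * n) ≤ (nDm (C * n) (K * n) (fun j => decide (VV n α j)) : ℝ) :=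
        (h6.trans h5).trans (by exact_mod_cast h7)
      exact_mod_cast h8
  have htab : ∀ j < 2 ^ (C * n + K * n), (tab S ((C + K) * n)).getD j false =
      decide (VV n (al n) j) := by
    intro j hj
    rw [← eCK] at hj
    rw [Bool.eq_iff_iff, getD_tab hj, decide_eq_true_eq, hSV]
  refine ⟨length_tab _ _, ?_, ?_⟩
  · refine (avd_congr htab (fun _ _ _ _ => rfl)).2 ?_
    intro z hz v hv h5
    rw [decide_eq_true_eq] at h5
    have h6 := hgood.1 _ (by rw [eCK]; exact idx_lt hz hv) h5
    have e3 : (z * 2 ^ (K * n) + v) / 2 ^ (K * n) = z := by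
      rw [Nat.add_comm, Nat.add_mul_div_right _ _ (by positivity), Nat.div_eq_of_lt hv, zero_add]
    have e4 : (z * 2 ^ (K * n) + v) % 2 ^ (K * n) = v := by
      rw [Nat.add_comm, Nat.add_mul_mod_self_right, Nat.mod_eq_of_lt hv]
    rwa [e3, e4] at h6
  · rw [nDm_congr htab]
    exact hgood.2

end Pool.Agent.H66.NX
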