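import Pool.Agent.H66.NX.ConvX

set_option autoImplicit false

namespace Pool.Agent.H66.NX

open Pool.Agent.H48.NE

/-- The threshold theorem for certified wrong values (kept out of `Results`: its main half is a
special case of the statistical tests theorem). -/
theorem threshold (p q : ℕ) (hp : 0 < p) (hq : 0 < q) (κ : ℝ) (hκ : κ ≤ 1) :
    ((p / q : ℝ) < κ → (NEXPTIME = EXPSPACE ↔ UnaryCollapse ∧ WrongValues p q κ)) ∧
    (κ < (p / q : ℝ) → WrongValues p q κ) :=
  ⟨fun h => ⟨fun e => ⟨unary_of_eq e, wrong_of_eq hp hq hκ e⟩, fun e =>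
      Set.Subset.antisymm NEXPTIME_subset_EXPSPACE (subset_of_wrong hp hq hκ h e.1 e.2)⟩,
    fun h => wrong_of_lt hp hq hκ h⟩

end Pool.Agent.H66.NX
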